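import Pool.Agent.Lib.MP_defcf3_al.BRP.Base
import Pool.Agent.Lib.MP_defcf3_al.BR.H84.Cycz
import Pool.Agent.Lib.MP_defcf3_al.BR.H50.Cls

/-!
Project BR7, module CYCDIV (D9): a nonzero cyclic class of degree ℓ forces a quasicyclic subgroup.
-/

set_option linter.all false

namespace BRP.H50

universe u

open BR7 BR7.H50

variable {ℓ : ℕ} [Fact ℓ.Prime] [Fact (Odd ℓ)]


section generic

variable {G A : Type u} [Group G] [TopologicalSpace G] [IsTopologicalGroup G] [CommGroup A]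
    [MulDistribMulAction G A]

/-- The evaluation function on G/N of a point w fixed by N. -/
lemma out_mk_smul (N : Subgroup G) {w : A} (hw : ∀ g ∈ N, g • w = w) (g : G) :
    (Quotient.out (QuotientGroup.mk g : G ⧸ N)) • w = g • w := by
  obtain ⟨n, hn⟩ := QuotientGroup.mk_out_eq_mul N g
  rw [hn, mul_smul, hw n n.2]

lemma out_eqv (N : Subgroup G) {w : A} (hw : ∀ g ∈ N, g • w = w) :
    EqvF (G := G) (fun x : G ⧸ N => (Quotient.out x) • w) := by
  intro g x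
  induction x using QuotientGroup.induction_on with
  | H h =>
    show (Quotient.out (QuotientGroup.mk (g * h) : G ⧸ N)) • w =
      g • (Quotient.out (QuotientGroup.mk h : G ⧸ N)) • w
    rw [out_mk_smul N hw, out_mk_smul N hw, mul_smul]

lemma norm_fixed (N : Subgroup G) [Fintype (G ⧸ N)] {w : A} (hw : ∀ g ∈ N, g • w = w) (g : G) :
    g • (∏ x : G ⧸ N, (Quotient.out x) • w) = ∏ x : G ⧸ N, (Quotient.out x) • w := by
  rw [Finset.smul_prod']
  have h1 : ∀ x : G ⧸ N, g • (Quotient.out x) • w = (Quotient.out (g • x)) • w :=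
    fun x => (out_eqv N hw g x).symm
  rw [Finset.prod_congr rfl (fun x _ => h1 x)]
  exact Equiv.prod_comp (MulAction.toPerm g) (fun x : G ⧸ N => (Quotient.out x) • w)

lemma corN_mul_left (N : Subgroup G) [Fintype (G ⧸ N)] (n : ℕ) (ψ : G → ZMod n) (w w' : A) :
    corN N n (w * w') ψ = corN N n w ψ * corN N n w' ψ := by
  funext g h
  simp only [corN, gcup, Pi.mul_apply, smul_mul', mul_pow, Finset.prod_mul_distrib]

lemma corN_one (N : Subgroup G) [Fintype (G ⧸ N)] (n : ℕ) (ψ : G → ZMod n) :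
    corN N n (1 : A) ψ = 1 := by
  funext g h
  simp only [corN, gcup, Pi.one_apply, smul_one, one_pow, Finset.prod_const_one]

/-- corN as a homomorphism in w. -/
noncomputable def corH (N : Subgroup G) [Fintype (G ⧸ N)] (n : ℕ) (ψ : G → ZMod n) :
    A →* (G → G → A) where
  toFun w := corN N n w ψ
  map_one' := corN_one N n ψ
  map_mul' w w' := corN_mul_left N n ψ w w'

lemma corH_apply (N : Subgroup G) [Fintype (G ⧸ N)] (n : ℕ) (ψ : G → ZMod n) (w : A) :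
    corH N n ψ w = corN N n w ψ := rfl

/-- The quotient of the cocycles by the coboundaries, computed by congruences in the group of cochains. -/
lemma seven_div {M : Type*} [Group M] (x y : M) (hc : Commute x y) (D : Subgroup M) (e : ℕ)
    (he : Nat.Coprime e ℓ)
    (hx : x ∈ D) (hy : y ∈ D) (h : x ^ e = y ^ ℓ) : ∃ z ∈ D, z ^ ℓ = x := by
  refine ⟨y ^ (Nat.gcdA e ℓ) * x ^ (Nat.gcdB e ℓ), mul_mem (zpow_mem hy _) (zpow_mem hx _), ?_⟩
  have h3 : (x : M) = (x ^ e) ^ (Nat.gcdA e ℓ) * (x ^ ℓ) ^ (Nat.gcdB e ℓ) := by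
    rw [← zpow_natCast, ← zpow_natCast, ← zpow_mul, ← zpow_mul, ← zpow_add]
    have h4 := Nat.gcd_eq_gcd_ab e ℓ
    rw [he.gcd_eq_one] at h4
    rw [← h4]
    simp
  rw [(hc.symm.zpow_zpow _ _).mul_pow]
  conv_rhs => rw [h3, h]
  congr 1
  · rw [← zpow_natCast, ← zpow_natCast, ← zpow_mul, ← zpow_mul, mul_comm]
  · rw [← zpow_natCast, ← zpow_natCast, ← zpow_mul, ← zpow_mul, mul_comm]

lemma mem_of_pow_coprimeL {M : Type*} [Group M] (S : Subgroup M) (x : M) (e : ℕ) (he : Nat.Coprime e ℓ)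
    (h1 : x ^ e ∈ S) (h2 : x ^ ℓ ∈ S) : x ∈ S := by
  have h4 := Nat.gcd_eq_gcd_ab e ℓ
  rw [he.gcd_eq_one] at h4
  have h3 : x = (x ^ e) ^ (Nat.gcdA e ℓ) * (x ^ ℓ) ^ (Nat.gcdB e ℓ) := by
    rw [← zpow_natCast, ← zpow_natCast, ← zpow_mul, ← zpow_mul, ← zpow_add, ← h4]
    simp
  rw [h3]
  exact mul_mem (zpow_mem h1 _) (zpow_mem h2 _)

end generic

/-- The last step: s(0,a) is the multiple [L:F] of (a,χ). -/
lemma cor_base {G A : Type u} [Group G] [TopologicalSpace G] [IsTopologicalGroup G] [CommGroup A]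
    [MulDistribMulAction G A] (hGADD : GcupAddStatement.{u}) (hGCOB : GcupCobStatement.{u})
    (hdisc : Disc G A) (N : Subgroup G) (hNo : IsOpen (N : Set G)) [Fintype (G ⧸ N)] (n : ℕ) [NeZero n]
    (χ : G → ZMod n) (hχ : ∀ g h, χ (g * h) = χ g + χ h) (hχc : IsLocallyConstant χ)
    (a : A) (ha : ∀ g : G, g • a = a) :
    corN N n a χ * ((cup n a χ) ^ (Fintype.card (G ⧸ N)))⁻¹ ∈ B2 G A := by
  have hos : OpenStab G (G ⧸ N) := H84.openStab_quot N hNo
  have hone : χ 1 = 0 := by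
    have := hχ 1 1
    rw [mul_one] at this
    exact left_eq_add.1 this
  have hinv : ∀ g, χ g⁻¹ = - χ g := by
    intro g
    have h1 := hχ g g⁻¹
    rw [mul_inv_cancel, hone] at h1
    exact (neg_eq_of_add_eq_zero_right h1.symm).symm
  let ρ : (G ⧸ N) → ZMod n := fun x => - χ (Quotient.out x)
  have e1 : corN N n a χ = gcup (X := G ⧸ N) n (fun _ => a) (fun g x => χ g + (ρ (g • x) - ρ x)) := by
    unfold corN
    congr 1
    · funext x
      exact ha _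
    · funext g x
      show χ ((Quotient.out (g • x))⁻¹ * g * Quotient.out x) = χ g + (- χ (Quotient.out (g • x)) -
        - χ (Quotient.out x))
      rw [hχ, hχ, hinv]
      ring
  have e2 : gcup (X := G ⧸ N) n (fun _ => a) (fun g _ => χ g) = (cup n a χ) ^ (Fintype.card (G ⧸ N)) := by
    funext g h
    simp only [gcup, Pi.pow_apply, cup, Finset.prod_const, Finset.card_univ]
  have hlc : ∀ x : G ⧸ N, IsLocallyConstant (fun g : G => ρ (g • x) - ρ x) := by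
    intro x
    have h1 : IsLocallyConstant (fun g : G => g • x) := by
      rw [IsLocallyConstant.iff_isOpen_fiber]
      intro y
      by_cases hy : ∃ g₀ : G, g₀ • x = y
      · obtain ⟨g₀, hg₀⟩ := hy
        have h2 : (fun g : G => g • x) ⁻¹' {y} =
            (fun g => g₀⁻¹ * g) ⁻¹' {g | g • x = x} := by
          ext g
          simp only [Set.mem_preimage, Set.mem_singleton_iff, Set.mem_setOf_eq]
          rw [mul_smul, inv_smul_eq_iff, hg₀]
        rw [h2]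
        exact (hos x).preimage (by fun_prop)
      · have h2 : (fun g : G => g • x) ⁻¹' {y} = ∅ := by
          ext g
          simp only [Set.mem_preimage, Set.mem_singleton_iff, Set.mem_empty_iff_false, iff_false]
          exact fun h => hy ⟨g, h⟩
        rw [h2]
        exact isOpen_empty
    exact h1.comp (fun y => ρ y - ρ x)
  have hA1 := hGADD G A (G ⧸ N) hdisc hos n (fun _ => a) (fun g _ => χ g)
    (fun g x => ρ (g • x) - ρ x) (fun g _ => (ha g).symm) (fun g h _ => hχ g h) (by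
      intro g h x
      show ρ ((g * h) • x) - ρ x = (ρ (g • h • x) - ρ (h • x)) + (ρ (h • x) - ρ x)
      rw [mul_smul]
      ring) (fun _ => hχc) hlc
  have hA2 := hGCOB G A (G ⧸ N) hdisc hos n (fun _ => a) ρ (fun g _ => (ha g).symm)
  rw [e1, ← e2]
  have := mul_mem hA1 hA2
  rw [mul_inv_rev, mul_assoc, mul_assoc, mul_comm _ (gcup (X := G ⧸ N) n (fun _ => a) (fun g x => ρ (g • x) - ρ x)),
    inv_mul_cancel_left] at this
  exact this

lemma h2_comm {G A : Type u} [Group G] [TopologicalSpace G] [CommGroup A]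
    [MulDistribMulAction G A] (x y : H2 G A) : Commute x y := by
  obtain ⟨x', rfl⟩ := QuotientGroup.mk_surjective x
  obtain ⟨y', rfl⟩ := QuotientGroup.mk_surjective y
  show (QuotientGroup.mk (x' * y') : H2 G A) = QuotientGroup.mk (y' * x')
  rw [mul_comm]

/-- The kernel of a character. -/
def kerX {G : Type u} [Group G] (n : ℕ) (X : G → ZMod n) (hX : ∀ g h, X (g * h) = X g + X h) : Subgroup G where
  carrier := {g | X g = 0}
  one_mem' := by
    have := hX 1 1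
    rw [mul_one] at this
    exact left_eq_add.1 this
  mul_mem' := by
    intro g h hg hh
    show X (g * h) = 0
    rw [hX, show X g = 0 from hg, show X h = 0 from hh, add_zero]
  inv_mem' := by
    intro g hg
    show X g⁻¹ = 0
    have h1 := hX g g⁻¹
    have h2 : X 1 = 0 := by
      have := hX 1 1
      rw [mul_one] at this
      exact left_eq_add.1 this
    rw [mul_inv_cancel, h2, show X g = 0 from hg, zero_add] at h1
    exact h1.symm

theorem cycdiv (hGADD : GcupAddStatement.{u}) (hGCOB : GcupCobStatement.{u}) (hGTORS : GcupTorsStatement.{u})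
    (hCORN : CorNStatement.{u}) (hCRES : CorNResStatement.{u}) (hCMOD : CorNModStatement.{u})
    (hHC : H90CycStatement.{u}) (hETA : EtaStatement.{u} ℓ) (hTOW : TowerStatement.{u} ℓ)
    (hQA : QuasiAStatement.{u} ℓ) (hQB : QuasiBStatement.{u} ℓ) (hNCONV : NormConvStatement.{u})
    (hDISC : DiscStatement.{u}) (hH90 : H90Statement.{u}) (hINDEX : IndexStatement.{u} ℓ) :
    CycDivStatement.{u} ℓ := by
  intro F Ω _ _ _ _ _ ζ hζ a χ ha hχ hχc hne
  classical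
  have hdisc : Disc (Ω ≃ₐ[F] Ω) Ωˣ := hDISC F Ω
  obtain ⟨η, X, hroot, hX, hXc, hXk, hXst, hXcyc⟩ := hETA F Ω ζ hζ
  haveI : ∀ m : ℕ, NeZero (ℓ ^ m) := fun m => ⟨pow_ne_zero _ (Fact.out : Nat.Prime ℓ).ne_zero⟩
  by_cases hcase : ∃ (g : Ωˣ) (n : ℕ), InF F g ∧ cup (ℓ ^ n) g (X n) ∉ B2 (Ω ≃ₐ[F] Ω) Ωˣ
  · obtain ⟨g, n, hg, hgn⟩ := hcase
    exact hQA F Ω X hX hXc hXk g n hg hgn
  push Not at hcase
  obtain ⟨ψ, hψN, hψk, hψr, hψ0⟩ := hTOW F Ω ζ hζ η hroot χ hχ hχc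
  obtain ⟨hη0, hηp, hηs⟩ := hroot
  set N : ℕ → Subgroup (Ω ≃ₐ[F] Ω) := fun n => MulAction.stabilizer (Ω ≃ₐ[F] Ω) (η n) with hNdef
  have hmemN : ∀ n g, g ∈ N n ↔ g • η n = η n := fun n g => MulAction.mem_stabilizer_iff
  have hNle : ∀ n, N (n + 1) ≤ N n := by
    intro n g hg
    rw [hmemN] at hg ⊢
    rw [← hηs n, smul_pow', hg]
  have hN0 : N 0 = HZ F ζ := by
    rw [hNdef]
    show MulAction.stabilizer (Ω ≃ₐ[F] Ω) (η 0) = _
    rw [hη0]
  have hNo : ∀ n, IsOpen (N n : Set (Ω ≃ₐ[F] Ω)) := fun n => (hψN n).isOpen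
  have hNU : ∀ n, N n = kerX _ (X n) (hX n) ⊓ HZ F ζ := by
    intro n
    ext g
    rw [hmemN, hXst, Subgroup.mem_inf, and_comm]
    rfl
  have hUo : ∀ n, IsOpen (kerX _ (X n) (hX n) : Set (Ω ≃ₐ[F] Ω)) := fun n => (hXc n).isOpen_fiber 0
  haveI hNfi : ∀ n, (N n).FiniteIndex := by
    intro n
    obtain ⟨-, h2, -⟩ := hINDEX F Ω ζ hζ _ (hUo n)
    rw [← hNU] at h2
    exact h2
  haveI hfin : ∀ n, Fintype ((Ω ≃ₐ[F] Ω) ⧸ N n) := fun n => Subgroup.fintypeQuotientOfFiniteIndex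
  -- the elements s n w
  set s : ℕ → Ωˣ → ((Ω ≃ₐ[F] Ω) → (Ω ≃ₐ[F] Ω) → Ωˣ) := fun n w => corN (N n) (ℓ ^ (n + 1)) w (ψ n) with hs
  have hsZ : ∀ n w, (∀ g ∈ N n, g • w = w) → s n w ∈ Z2 (Ω ≃ₐ[F] Ω) Ωˣ := fun n w hw =>
    ((hCORN (Ω ≃ₐ[F] Ω) Ωˣ hdisc (N n) (ℓ ^ (n + 1)) (ψ n) (hψN n)).1 w hw).1
  have hsT : ∀ n w, (∀ g ∈ N n, g • w = w) → s n w ^ (ℓ ^ (n + 1)) ∈ B2 (Ω ≃ₐ[F] Ω) Ωˣ := fun n w hw =>
    ((hCORN (Ω ≃ₐ[F] Ω) Ωˣ hdisc (N n) (ℓ ^ (n + 1)) (ψ n) (hψN n)).1 w hw).2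
  let D : Subgroup (H2 (Ω ≃ₐ[F] Ω) Ωˣ) :=
    Subgroup.closure {x | ∃ (n : ℕ) (w : Ωˣ), (∀ g ∈ N n, g • w = w) ∧ x = cls (Ω ≃ₐ[F] Ω) Ωˣ (s n w)}
  have hmemD : ∀ n w, (∀ g ∈ N n, g • w = w) → cls (Ω ≃ₐ[F] Ω) Ωˣ (s n w) ∈ D := fun n w hw =>
    Subgroup.subset_closure ⟨n, w, hw, rfl⟩
  refine hQB F Ω D ?_ ?_ ?_
  · -- D is not trivial
    intro hD
    have h1 := hmemD 0 a (fun g _ => ha g)
    rw [hD, Subgroup.mem_bot, cls_one_iff (hsZ 0 a (fun g _ => ha g))] at h1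
    have h2 : s 0 a = corN (N 0) ℓ a χ := by
      funext g h
      have hval : ∀ g' ∈ N 0, (ψ 0 g').val = (χ g').val := by
        intro g' hg'
        rw [hmemN, hη0] at hg'
        exact hψ0 g' hg'
      have hout : ∀ (g : Ω ≃ₐ[F] Ω) (x : (Ω ≃ₐ[F] Ω) ⧸ N 0), (Quotient.out (g • x))⁻¹ * g * Quotient.out x ∈ N 0 := by
        intro g x
        have h3 : (QuotientGroup.mk (Quotient.out (g • x)) : (Ω ≃ₐ[F] Ω) ⧸ N 0) =
            QuotientGroup.mk (g * Quotient.out x) := by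
          rw [QuotientGroup.out_eq' (g • x)]
          conv_lhs => rw [← QuotientGroup.out_eq' x]
          rfl
        rw [QuotientGroup.eq] at h3
        rwa [mul_assoc]
      show ∏ x : (Ω ≃ₐ[F] Ω) ⧸ N 0, _ = ∏ x : (Ω ≃ₐ[F] Ω) ⧸ N 0, _
      refine Finset.prod_congr rfl (fun x _ => ?_)
      congr 1
      unfold carry
      rw [hval _ (hout g (h • x)), hval _ (hout h x)]
      norm_num
    rw [h2] at h1
    have h3 := cor_base hGADD hGCOB hdisc (N 0) (hNo 0) ℓ χ hχ hχc a ha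
    have h4 := H84.mem_of_mul_inv' h3 h1
    have h5 : (cup ℓ a χ) ^ ℓ ∈ B2 (Ω ≃ₐ[F] Ω) Ωˣ := by
      rw [← H84.gcup_punit]
      exact hGTORS (Ω ≃ₐ[F] Ω) Ωˣ PUnit.{u + 1} hdisc H84.openStab_punit ℓ (fun _ => a)
        (fun g _ => χ g) (fun g _ => (ha g).symm) (fun g h _ => hχ g h) (fun _ => hχc)
    have h6 : Nat.Coprime (Fintype.card ((Ω ≃ₐ[F] Ω) ⧸ N 0)) ℓ := by
      obtain ⟨-, -, h7⟩ := hINDEX F Ω ζ hζ ⊤ isOpen_univ
      rw [top_inf_eq, Subgroup.relIndex_top_right, Subgroup.index, ← hN0, Nat.card_eq_fintype_card] at h7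
      exact h7
    exact hne (mem_of_pow_coprimeL _ _ _ h6 h4 h5)
  · -- D is ℓ-primary
    intro x hx
    refine Subgroup.closure_induction (p := fun x _ => ∃ j : ℕ, x ^ (ℓ ^ j) = 1) ?_ ?_ ?_ ?_ hx
    · rintro x ⟨n, w, hw, rfl⟩
      refine ⟨n + 1, ?_⟩
      rw [← cls_pow (hsZ n w hw), cls_one_iff (pow_mem (hsZ n w hw) _)]
      exact hsT n w hw
    · exact ⟨0, one_pow _⟩
    · rintro x y _ _ ⟨i, hi⟩ ⟨j, hj⟩
      refine ⟨i + j, ?_⟩
      rw [(h2_comm x y).mul_pow, pow_add, pow_mul, hi, one_pow, one_mul, mul_comm, pow_mul, hj, one_pow]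
    · rintro x _ ⟨i, hi⟩
      exact ⟨i, by rw [inv_pow, hi, inv_one]⟩
  · -- D is ℓ-divisible
    intro x hx
    refine Subgroup.closure_induction (p := fun x _ => ∃ y ∈ D, y ^ ℓ = x) ?_ ?_ ?_ ?_ hx
    · rintro x ⟨n, w, hw, rfl⟩
      -- the norm of w
      set g : Ωˣ := ∏ x : (Ω ≃ₐ[F] Ω) ⧸ N n, (Quotient.out x) • w with hg
      have hgF : InF F g := fun γ => norm_fixed (N n) hw γ
      set U := kerX _ (X (n + 1)) (hX (n + 1)) with hU
      have hUm : ∀ γ, γ ∈ U ↔ X (n + 1) γ = 0 := fun γ => Iff.rfl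
      have hH1 : H1Triv U Ωˣ := by
        intro c hc hcc
        have h1 := hH90 F Ω U (hUo (n + 1)) ⊤ isOpen_univ
        obtain ⟨y, hy⟩ := h1 (fun x => c x.1) (hc.comp_continuous continuous_subtype_val)
          (fun g h => hcc g.1 h.1)
        exact ⟨y, fun g => hy ⟨g, Subgroup.mem_top g⟩⟩
      obtain ⟨w', hw', hwN⟩ := hNCONV (Ω ≃ₐ[F] Ω) Ωˣ hdisc (ℓ ^ (n + 1)) (X (n + 1)) (hX (n + 1))
        (hXc (n + 1)) U hUm hH1 g hgF (hcase g (n + 1) hgF)
      have hNU' : N (n + 1) ≤ U := by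
        rw [hNU]
        exact inf_le_left
      have hprod := hwN (N (n + 1)) hNU'
      set e := (N (n + 1)).relIndex U with he
      have hecop : Nat.Coprime e ℓ := by
        obtain ⟨-, -, h3⟩ := hINDEX F Ω ζ hζ _ (hUo (n + 1))
        rw [← hNU] at h3
        exact h3
      have hw'N : ∀ γ ∈ N (n + 1), γ • w' = w' := fun γ hγ => hw' γ (hNU' hγ)
      -- corestriction to N n
      have hch' : NChar (N (n + 1)) (ℓ ^ (n + 1)) (ψ n) :=
        ⟨(hψN (n + 1)).normal, hNo (n + 1), fun g hg h hh => (hψN n).add g (hNle n hg) h (hNle n hh),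
          (hψN n).lc⟩
      obtain ⟨w1, hw1, hw1N, hw1s⟩ := hCRES (Ω ≃ₐ[F] Ω) Ωˣ hdisc (N n) (N (n + 1)) (ℓ ^ (n + 1)) (ψ n)
        (hNle n) (hψN n) hch' w' hw'N
      rw [hprod] at hw1N
      -- change of modulus
      have hmod := hCMOD (Ω ≃ₐ[F] Ω) Ωˣ hdisc (N (n + 1)) (ℓ ^ (n + 1)) ℓ (ℓ ^ (n + 1 + 1))
        (pow_dvd_pow ℓ (Nat.le_succ (n + 1))) (pow_succ ℓ (n + 1)) (ψ (n + 1)) (hψN (n + 1)) w' hw'N
      have hmod2 : corN (N (n + 1)) (ℓ ^ (n + 1)) w'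
          (fun g => ZMod.castHom (pow_dvd_pow ℓ (Nat.le_succ (n + 1))) (ZMod (ℓ ^ (n + 1))) (ψ (n + 1) g)) =
          corN (N (n + 1)) (ℓ ^ (n + 1)) w' (ψ n) := by
        symm
        exact (hCORN (Ω ≃ₐ[F] Ω) Ωˣ hdisc (N (n + 1)) (ℓ ^ (n + 1)) (ψ n) hch').2.2.2.1 w' _
          (fun g hg => (hψk n g ((hmemN _ _).1 hg)).symm)
      rw [hmod2] at hmod
      -- Hilbert 90 in the cyclic extension
      obtain ⟨σ, hσ⟩ := hXcyc n
      obtain ⟨v, hv, hv2⟩ := hHC F Ω (N n) (hψN n).normal (hNo n) σ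
        (fun g => by
          obtain ⟨i, hi⟩ := hσ g
          exact ⟨i, (hmemN _ _).2 hi⟩) (w1 * (w ^ e)⁻¹)
        (fun g hg => by rw [smul_mul', smul_inv', smul_pow', hw1 g hg, hw g hg])
        (by
          simp only [smul_mul', smul_inv', smul_pow', Finset.prod_mul_distrib, Finset.prod_inv_distrib,
            Finset.prod_pow]
          rw [hw1N, ← hg, mul_inv_cancel])
      have hσv : ∀ g ∈ N n, g • σ • v = σ • v := by
        intro g hg
        have h1 : σ⁻¹ * g * σ ∈ N n := by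
          have := (hψN n).normal.conj_mem g hg σ⁻¹
          rwa [inv_inv] at this
        have h2 := hv _ h1
        rw [mul_smul, mul_smul, inv_smul_eq_iff] at h2
        exact h2
      obtain ⟨r, hr, hrψ⟩ := hψr n σ
      obtain ⟨hC1, hC2, hC3, hC4, hC5⟩ := hCORN (Ω ≃ₐ[F] Ω) Ωˣ hdisc (N n) (ℓ ^ (n + 1)) (ψ n) (hψN n)
      have hc1 := hC5 v σ hv
      have hc2 : corN (N n) (ℓ ^ (n + 1)) v (fun h => ψ n (σ * h * σ⁻¹)) =
          corN (N n) (ℓ ^ (n + 1)) v (fun h => (r : ZMod (ℓ ^ (n + 1))) * ψ n h) := by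
        symm
        refine (hCORN (Ω ≃ₐ[F] Ω) Ωˣ hdisc (N n) (ℓ ^ (n + 1)) _ ?_).2.2.2.1 v _
          (fun g hg => (hrψ g ((hmemN _ _).1 hg)).symm)
        exact ⟨(hψN n).normal, hNo n, fun g hg h hh => by
          rw [(hψN n).add g hg h hh, mul_add], (hψN n).lc.comp (fun x => (r : ZMod (ℓ ^ (n + 1))) * x)⟩
      rw [hc2] at hc1
      have hc3 := hC3 v r hv
      have hfin1 : s (n + 1) w' ^ ℓ * (s n w1)⁻¹ ∈ B2 (Ω ≃ₐ[F] Ω) Ωˣ := by
        have := mul_mem hmod hw1s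
        rw [mul_assoc, inv_mul_cancel_left] at this
        exact this
      have hfin2 : s n (σ • v) * (s n v ^ r)⁻¹ ∈ B2 (Ω ≃ₐ[F] Ω) Ωˣ := by
        have := mul_mem hc1 hc3
        rw [mul_assoc, inv_mul_cancel_left] at this
        exact this
      have hsv : s n (σ • v) = s n w1 * (s n w ^ e)⁻¹ * s n v := by
        rw [← hv2]
        show corH (N n) (ℓ ^ (n + 1)) (ψ n) _ = corH (N n) (ℓ ^ (n + 1)) (ψ n) _ *
          (corH (N n) (ℓ ^ (n + 1)) (ψ n) _ ^ e)⁻¹ * corH (N n) (ℓ ^ (n + 1)) (ψ n) _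
        rw [map_mul, map_mul, map_inv, map_pow]
      have hr7 : r = r / ℓ * ℓ + 1 := by
        have h1 := Nat.div_add_mod r ℓ
        rw [hr, mul_comm] at h1
        exact h1.symm
      have hsr : s n v ^ r = (s n v ^ (r / ℓ)) ^ ℓ * s n v := by
        conv_lhs => rw [hr7]
        rw [pow_succ, pow_mul]
      rw [hsv, hsr] at hfin2
      have hfin3 : (s (n + 1) w' * (s n v ^ (r / ℓ))⁻¹) ^ ℓ * (s n w ^ e)⁻¹ ∈ B2 (Ω ≃ₐ[F] Ω) Ωˣ := by
        have h1 := mul_mem hfin1 hfin2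
        have h2 : s (n + 1) w' ^ ℓ * (s n w1)⁻¹ *
            (s n w1 * (s n w ^ e)⁻¹ * s n v * ((s n v ^ (r / ℓ)) ^ ℓ * s n v)⁻¹) =
            (s (n + 1) w' * (s n v ^ (r / ℓ))⁻¹) ^ ℓ * (s n w ^ e)⁻¹ := by
          generalize s (n + 1) w' = A1
          generalize s n w1 = A2
          generalize s n w ^ e = A3
          generalize s n v ^ (r / ℓ) = A4
          generalize s n v = A5
          rw [mul_inv_rev, mul_pow, inv_pow]
          rw [mul_assoc (A2 * A3⁻¹) A5, mul_inv_cancel_left A5, mul_assoc A2, mul_assoc (A1 ^ ℓ),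
            inv_mul_cancel_left A2, mul_comm A3⁻¹, ← mul_assoc]
        rw [h2] at h1
        exact h1
      have hZw := hsZ n w hw
      have hZw' := hsZ (n + 1) w' hw'N
      have hZv := hsZ n v hv
      have hZy : s (n + 1) w' * (s n v ^ (r / ℓ))⁻¹ ∈ Z2 (Ω ≃ₐ[F] Ω) Ωˣ :=
        mul_mem hZw' (inv_mem (pow_mem hZv _))
      have hyD : cls (Ω ≃ₐ[F] Ω) Ωˣ (s (n + 1) w' * (s n v ^ (r / ℓ))⁻¹) ∈ D := by
        rw [cls_mul hZw' (inv_mem (pow_mem hZv _)), cls_inv (pow_mem hZv _), cls_pow hZv]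
        exact mul_mem (hmemD (n + 1) w' hw'N) (inv_mem (pow_mem (hmemD n v hv) _))
      refine seven_div _ _ (h2_comm _ _) D e hecop (hmemD n w hw) hyD ?_
      rw [← cls_pow hZw, ← cls_pow hZy, eq_comm, cls_eq_iff (pow_mem hZy ℓ) (pow_mem hZw e)]
      exact hfin3
    · exact ⟨1, one_mem _, one_pow _⟩
    · rintro x y _ _ ⟨x', hx', rfl⟩ ⟨y', hy', rfl⟩
      exact ⟨x' * y', mul_mem hx' hy', (h2_comm x' y').mul_pow _⟩
    · rintro x _ ⟨x', hx', rfl⟩
      exact ⟨x'⁻¹, inv_mem hx', inv_pow _ _⟩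

end BRP.H50
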