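import Pool.Agent.Lib.MP_defcf3_al.BRP.H50.FinalT

/-! Final assembly, Theorem C. -/

open scoped TensorProduct

namespace BRP.H50

universe u

variable {ℓ : ℕ} [Fact ℓ.Prime] [Fact (Odd ℓ)]


open BR7 BR7.H50

/-- A class in the subgroup generated by the cyclic classes is a product of nontrivial cyclic classes. -/
theorem list_form {F Ω : Type u} [Field F] [Field Ω] [Algebra F Ω]
    (hZ : ∀ (a : Ωˣ) (χ : (Ω ≃ₐ[F] Ω) → ZMod ℓ), InF F a → (∀ g h, χ (g * h) = χ g + χ h) →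
      IsLocallyConstant χ → cup ℓ a χ ∈ Z2 (Ω ≃ₐ[F] Ω) Ωˣ)
    (c : H2 (Ω ≃ₐ[F] Ω) Ωˣ)
    (hc : c ∈ Subgroup.closure {s | ∃ (a : Ωˣ) (χ : (Ω ≃ₐ[F] Ω) → ZMod ℓ), InF F a ∧
        (∀ g h, χ (g * h) = χ g + χ h) ∧ IsLocallyConstant χ ∧ s = cls (Ω ≃ₐ[F] Ω) Ωˣ (cup ℓ a χ)}) :
    ∃ (k : ℕ) (a : Fin k → Ωˣ) (χ : Fin k → (Ω ≃ₐ[F] Ω) → ZMod ℓ), (∀ i, InF F (a i)) ∧
      (∀ i g h, χ i (g * h) = χ i g + χ i h) ∧ (∀ i, IsLocallyConstant (χ i)) ∧
      (∀ i, cup ℓ (a i) (χ i) ∉ B2 (Ω ≃ₐ[F] Ω) Ωˣ) ∧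
      c = cls (Ω ≃ₐ[F] Ω) Ωˣ (∏ i, cup ℓ (a i) (χ i)) := by
  classical
  induction hc using Subgroup.closure_induction with
  | mem s hs =>
    obtain ⟨a, χ, ha, hχ, hχc, rfl⟩ := hs
    by_cases h : cup ℓ a χ ∈ B2 (Ω ≃ₐ[F] Ω) Ωˣ
    · refine ⟨0, Fin.elim0, Fin.elim0, fun i => i.elim0, fun i => i.elim0, fun i => i.elim0,
        fun i => i.elim0, ?_⟩
      rw [(cls_one_iff (hZ a χ ha hχ hχc)).mpr h, Finset.univ_eq_empty, Finset.prod_empty]
      exact ((cls_one_iff (one_mem _)).mpr (one_mem _)).symm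
    · refine ⟨1, fun _ => a, fun _ => χ, fun _ => ha, fun _ => hχ, fun _ => hχc, fun _ => h, ?_⟩
      rw [Fin.prod_univ_one]
  | one =>
    refine ⟨0, Fin.elim0, Fin.elim0, fun i => i.elim0, fun i => i.elim0, fun i => i.elim0,
        fun i => i.elim0, ?_⟩
    rw [Finset.univ_eq_empty, Finset.prod_empty]
    exact ((cls_one_iff (one_mem _)).mpr (one_mem _)).symm
  | mul s t _ _ ihs iht =>
    obtain ⟨k, a, χ, h1, h2, h3, h4, rfl⟩ := ihs
    obtain ⟨k', a', χ', h1', h2', h3', h4', rfl⟩ := iht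
    refine ⟨k + k', Fin.append a a', Fin.append χ χ', ?_, ?_, ?_, ?_, ?_⟩
    · intro i
      refine Fin.addCases (fun i => ?_) (fun i => ?_) i
      · rw [Fin.append_left]; exact h1 i
      · rw [Fin.append_right]; exact h1' i
    · intro i
      refine Fin.addCases (fun i => ?_) (fun i => ?_) i
      · rw [Fin.append_left]; exact h2 i
      · rw [Fin.append_right]; exact h2' i
    · intro i
      refine Fin.addCases (fun i => ?_) (fun i => ?_) i
      · rw [Fin.append_left]; exact h3 i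
      · rw [Fin.append_right]; exact h3' i
    · intro i
      refine Fin.addCases (fun i => ?_) (fun i => ?_) i
      · rw [Fin.append_left, Fin.append_left]; exact h4 i
      · rw [Fin.append_right, Fin.append_right]; exact h4' i
    · rw [Fin.prod_univ_add]
      simp only [Fin.append_left, Fin.append_right]
      rw [← cls_mul (prod_mem fun i _ => hZ _ _ (h1 i) (h2 i) (h3 i))
        (prod_mem fun i _ => hZ _ _ (h1' i) (h2' i) (h3' i))]
  | inv s _ ihs =>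
    obtain ⟨k, a, χ, h1, h2, h3, h4, rfl⟩ := ihs
    have e : ∀ i, cup ℓ (a i)⁻¹ (χ i) = (cup ℓ (a i) (χ i))⁻¹ := by
      intro i
      funext g h
      change (a i)⁻¹ ^ _ = ((a i) ^ _)⁻¹
      rw [inv_pow]
    refine ⟨k, fun i => (a i)⁻¹, χ, ?_, h2, h3, ?_, ?_⟩
    · intro i g
      rw [smul_inv', h1 i g]
    · intro i hB
      rw [e i] at hB
      exact h4 i (by simpa using inv_mem hB)
    · rw [← cls_inv (prod_mem fun i _ => hZ _ _ (h1 i) (h2 i) (h3 i)), ← Finset.prod_inv_distrib]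
      congr 1

/-- If chi is trivial then the cup product is trivial. -/
theorem cup_zero_B2 {G A : Type u} [Group G] [TopologicalSpace G] [CommGroup A] [MulDistribMulAction G A]
    (a : A) (χ : G → ZMod ℓ) (h : ∀ g, χ g = 0) : cup ℓ a χ ∈ B2 G A := by
  have : cup ℓ a χ = 1 := by
    funext g h'
    change a ^ carry ℓ (χ g) (χ h') = 1
    rw [h g, h h']
    have : carry ℓ 0 0 = 0 := by
      unfold carry
      rw [ZMod.val_zero, add_zero, Nat.zero_div]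
    rw [this, pow_zero]
  rw [this]
  exact one_mem _

theorem natCast_sep {F : Type u} [Field F] (h7 : ((ℓ : ℕ) : F) ≠ 0) : ((ℓ : ℕ) : SeparableClosure F) ≠ 0 := by
  rw [← map_natCast (algebraMap F (SeparableClosure F)) ℓ]
  exact (map_ne_zero (algebraMap F (SeparableClosure F))).mpr h7

theorem exists_zeta (F : Type u) [Field F] (h7 : ((ℓ : ℕ) : F) ≠ 0) :
    ∃ ζ : (SeparableClosure F)ˣ, IsPrimitiveRoot ζ ℓ := by
  have : NeZero ((ℓ : ℕ) : SeparableClosure F) := ⟨natCast_sep h7⟩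
  obtain ⟨z, hz⟩ := HasEnoughRootsOfUnity.exists_primitiveRoot (SeparableClosure F) ℓ
  have hz0 : z ≠ 0 := hz.ne_zero (Fact.out : Nat.Prime ℓ).ne_zero
  refine ⟨Units.mk0 z hz0, ?_⟩
  rw [← IsPrimitiveRoot.coe_units_iff]
  exact hz

/-- A primitive root of unity with stabilizer of the right index. -/
theorem exists_zeta' {F L : Type u} [Field F] [Field L] [Algebra F L] (h7 : ((ℓ : ℕ) : F) ≠ 0)
    (hL : IsCyclotomicExtension {ℓ} F L) :
    ∃ ζ : (SeparableClosure F)ˣ, IsPrimitiveRoot ζ ℓ ∧ (HZ F ζ).index = Module.finrank F L := by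
  obtain ⟨ζ, hζ⟩ := exists_zeta F h7
  have : NeZero ((ℓ : ℕ) : F) := ⟨h7⟩
  have hfdL : FiniteDimensional F L := IsCyclotomicExtension.finiteDimensional {ℓ} F L
  have hsep : Algebra.IsSeparable F L := IsCyclotomicExtension.isSeparable {ℓ} F L
  let φ : L →ₐ[F] SeparableClosure F := IsSepClosed.lift
  exact ⟨ζ, hζ, index_HZ hζ hL φ⟩

/-- Theorem C. -/
theorem finalC {d : ℕ} (hCohC : CohCStatement.{u} ℓ d)
    (hRepEx : RepExStatement.{u}) (hRepZ : RepZStatement.{u, 0}) (hOp : RepOpStatement.{u, 0})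
    (hOne : RepOneStatement.{u}) (hConv : ConvStatement.{u, 0}) (hDiv : DivSevenStatement.{u} ℓ)
    (hGZ : GcupZStatement.{u}) (hDisc : DiscStatement.{u}) (hPi : PiStatement.{u})
    (hCyc : CycAlgStatement.{u} ℓ) (hCSA : RepCSAStatement.{u, 0}) (hDeg : DegSevenStatement.{u} ℓ)
    (hUniq : UniqStatement.{u}) :
    ∀ (F : Type u) [Field F], ((ℓ : ℕ) : F) ≠ 0 → ∀ (L : Type u) [Field L] [Algebra F L],
      IsCyclotomicExtension {ℓ} F L → Module.finrank F L = d →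
      ∀ (D : Type u) [DivisionRing D] [Algebra F D] [Algebra.IsCentral F D], Module.finrank F D = ℓ ^ 2 →
      ∃ (k : ℕ) (B : Fin k → Type u) (_ : ∀ i, Ring (B i)) (_ : ∀ i, Algebra F (B i)), k ≠ 0 ∧
        (∀ i, Algebra.IsCentral F (B i) ∧ Module.finrank F (B i) = ℓ ^ 2 ∧ (∀ b : B i, b ≠ 0 → IsUnit b) ∧
          ∃ (K : Type u) (_ : Field K) (_ : Algebra F K), IsGalois F K ∧ Module.finrank F K = ℓ ∧
            Nonempty (K →ₐ[F] B i)) ∧
        ∃ p q : ℕ, p ≠ 0 ∧ q ≠ 0 ∧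
          Nonempty (Matrix (Fin p) (Fin p) D ≃ₐ[F] Matrix (Fin q) (Fin q) (⨂[F] i, B i)) := by
  intro F _ h7 L _ _ hL hd D _ _ _ hD
  have hl0 := (Fact.out : Nat.Prime ℓ).ne_zero
  have hl2 := (Fact.out : Nat.Prime ℓ).two_le
  have : FiniteDimensional F D := Module.finite_of_finrank_pos (by rw [hD]; positivity)
  obtain ⟨n, f, ⟨R⟩⟩ := hRepEx F (SeparableClosure F) D
  have hn : n = ℓ := by
    have h1 := R.dim
    rw [hD, Fintype.card_fin] at h1
    exact deg_eq h1.symm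
  rw [hn] at R
  have hZ := hRepZ F (SeparableClosure F) D (Fin ℓ) f R
  obtain ⟨ζ, hζ, hidx⟩ := exists_zeta' h7 hL
  obtain ⟨H, hH, hI, hB⟩ := hDiv F (SeparableClosure F) h7 D f R
  have hC := hCohC F (SeparableClosure F) ζ hζ (hidx.trans hd) f hZ H hH hI hB
  have hcZ := fun a χ ha hχ hχc => cupResZ (ℓ := ℓ) hGZ hDisc F (SeparableClosure F) a χ ha hχ hχc
  obtain ⟨k, a, χ, h1, h2, h3, h4, h5⟩ := list_form hcZ _ hC
  have hne : ∀ i, ∃ g, χ i g ≠ 0 := by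
    intro i
    by_contra hcon
    push Not at hcon
    exact h4 i (cup_zero_B2 _ _ hcon)
  choose B i1 i2 hRep hK using fun i => hCyc F (SeparableClosure F) (a i) (χ i) (h1 i) (h2 i) (h3 i) (hne i)
  have hprodZ : (∏ i, cup ℓ (a i) (χ i)) ∈ Z2 (SeparableClosure F ≃ₐ[F] SeparableClosure F)
      (SeparableClosure F)ˣ := prod_mem fun i _ => hcZ _ _ (h1 i) (h2 i) (h3 i)
  refine ⟨k, B, i1, i2, ?_, ?_, ?_⟩
  · rintro rfl
    rw [Finset.univ_eq_empty, Finset.prod_empty, (cls_one_iff (one_mem _)).mpr (one_mem _),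
      cls_one_iff hZ] at h5
    obtain ⟨e⟩ := split_of_B2 hOp hOne hConv hl0 R h5
    exact not_division_matrix hl2 e
  · intro i
    obtain ⟨Ri⟩ := hRep i
    obtain ⟨c1, c2, c3⟩ := hCSA F (SeparableClosure F) (B i) (Fin ℓ) _ Ri
    have hdim : Module.finrank F (B i) = ℓ ^ 2 := by
      rw [Ri.dim, Fintype.card_fin]
    refine ⟨c1, hdim, ?_, hK i⟩
    rcases hDeg F (B i) hdim with ⟨⟨e⟩⟩ | h
    · exfalso
      obtain ⟨R1⟩ := hOne F (SeparableClosure F) ℓ hl0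
      obtain ⟨R2⟩ := (hOp F (SeparableClosure F) (Matrix (Fin ℓ) (Fin ℓ) F) (Fin ℓ) 1 R1).2.1 (B i) e.symm
      have := hUniq F (SeparableClosure F) (B i) (B i) ℓ ℓ _ _ Ri R2 1 1 one_ne_zero one_ne_zero AlgEquiv.refl
      rw [inv_one, mul_one] at this
      exact h4 i this
    · exact h
  · obtain ⟨P⟩ := hPi F (SeparableClosure F) k B (fun _ => ℓ) _ hRep
    have hf : f * (∏ i, cup ℓ (a i) (χ i))⁻¹ ∈ B2 (SeparableClosure F ≃ₐ[F] SeparableClosure F)
      (SeparableClosure F)ˣ := (cls_eq_iff hZ hprodZ).mp h5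
    obtain ⟨R'⟩ := (hOp F (SeparableClosure F) D (Fin ℓ) f R).2.2.1 _ hf
    obtain ⟨M1⟩ := (hOp F (SeparableClosure F) D (Fin ℓ) _ R').2.2.2 (ℓ ^ k) (pow_ne_zero _ hl0)
    obtain ⟨M2⟩ := (hOp F (SeparableClosure F) _ _ _ P).2.2.2 ℓ hl0
    have e1 : Fin ℓ × Fin (ℓ ^ k) ≃ Fin (ℓ ^ (k + 1)) := Fintype.equivOfCardEq (by
      rw [Fintype.card_prod, Fintype.card_fin, Fintype.card_fin, Fintype.card_fin]; ring)
    have e2 : ((i : Fin k) → Fin ℓ) × Fin ℓ ≃ Fin (ℓ ^ (k + 1)) := Fintype.equivOfCardEq (by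
      rw [Fintype.card_prod, Fintype.card_pi, Finset.prod_const, Fintype.card_fin, Fintype.card_fin,
        Finset.card_univ, Fintype.card_fin]; ring)
    obtain ⟨N1⟩ := (hOp F (SeparableClosure F) _ _ _ M1).1 _ e1
    obtain ⟨N2⟩ := (hOp F (SeparableClosure F) _ _ _ M2).1 _ e2
    exact ⟨ℓ ^ k, ℓ, pow_ne_zero _ hl0, hl0, hConv F (SeparableClosure F) _ _ _ _ N1 N2⟩

end BRP.H50
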