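import Pool.Agent.Lib.MP_defcf3_al.BRP.H50.FinalC

/-! Final assembly, Brumer-Rosen alternative. -/

open scoped TensorProduct

namespace BRP.H50

universe u

variable {ℓ : ℕ} [Fact ℓ.Prime] [Fact (Odd ℓ)]


open BR7 BR7.H50

/-- A central division algebra of degree ℓ forces a quasicyclic subgroup. -/
theorem finalD {d : ℕ} (hCohC : CohCStatement.{u} ℓ d) (hCD : CycDivStatement.{u} ℓ)
    (hRepEx : RepExStatement.{u}) (hRepZ : RepZStatement.{u, 0}) (hOp : RepOpStatement.{u, 0})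
    (hOne : RepOneStatement.{u}) (hConv : ConvStatement.{u, 0}) (hDiv : DivSevenStatement.{u} ℓ)
    (hGZ : GcupZStatement.{u}) (hDisc : DiscStatement.{u}) :
    ∀ (F : Type u) [Field F], ((ℓ : ℕ) : F) ≠ 0 → ∀ (L : Type u) [Field L] [Algebra F L],
      IsCyclotomicExtension {ℓ} F L → Module.finrank F L = d →
      ∀ (D : Type u) [DivisionRing D] [Algebra F D] [Algebra.IsCentral F D], Module.finrank F D = ℓ ^ 2 →
      HasQuasi ℓ F (SeparableClosure F) := by
  intro F _ h7 L _ _ hL hd D _ _ _ hD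
  have hl0 := (Fact.out : Nat.Prime ℓ).ne_zero
  have hl2 := (Fact.out : Nat.Prime ℓ).two_le
  by_contra hno
  have : FiniteDimensional F D := Module.finite_of_finrank_pos (by rw [hD]; positivity)
  obtain ⟨n, f, ⟨R⟩⟩ := hRepEx F (SeparableClosure F) D
  have hn : n = ℓ := by
    have h1 := R.dim
    rw [hD, Fintype.card_fin] at h1
    exact deg_eq h1.symm
  rw [hn] at R
  have hZ := hRepZ F (SeparableClosure F) D (Fin ℓ) f R
  obtain ⟨H, hH, hI, hB⟩ := hDiv F (SeparableClosure F) h7 D f R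
  obtain ⟨ζ, hζ, hidx⟩ := exists_zeta' h7 hL
  have hC := hCohC F (SeparableClosure F) ζ hζ (hidx.trans hd) f hZ H hH hI hB
  have hcy : ∀ (a : (SeparableClosure F)ˣ) (χ : (SeparableClosure F ≃ₐ[F] SeparableClosure F) → ZMod ℓ),
      InF F a → (∀ g h, χ (g * h) = χ g + χ h) → IsLocallyConstant χ →
      cup ℓ a χ ∈ B2 (SeparableClosure F ≃ₐ[F] SeparableClosure F) (SeparableClosure F)ˣ := by
    intro a χ ha hχ hχc
    by_contra hne
    exact hno (hCD F (SeparableClosure F) ζ hζ a χ ha hχ hχc hne)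
  have hc1 := closure_cyc_trivial (fun a χ ha hχ hχc => cupResZ hGZ hDisc F _ a χ ha hχ hχc) hcy _ hC
  rw [cls_one_iff hZ] at hc1
  obtain ⟨e⟩ := split_of_B2 hOp hOne hConv hl0 R hc1
  exact not_division_matrix hl2 e

end BRP.H50
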