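import Pool.Agent.Lib.MP_defcf3_al.BRP.H50.FinalT

/-! Module SEQ: a quasicyclic subgroup in terms of algebras. -/

open scoped TensorProduct

namespace BRP.H50

universe u

variable {ℓ : ℕ} [Fact ℓ.Prime] [Fact (Odd ℓ)]


open BR7 BR7.H50

theorem seq (hFac : FactorStatement.{u}) (hDesc : DescStatement.{u}) (hOp : RepOpStatement.{u, 0})
    (hOne : RepOneStatement.{u}) (hConv : ConvStatement.{u, 0}) (hPi : PiStatement.{u})
    (hCSA : RepCSAStatement.{u, 0}) (hUniq : UniqStatement.{u}) : SeqStatement.{u} ℓ := by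
  intro F _ hq
  obtain ⟨y, hZ, h0, h7, hstep⟩ := hq
  choose N hN hNo hNf using fun n => hFac F (SeparableClosure F) (y n) (hZ n)
  choose A i1 i2 hR using fun n => hDesc F (SeparableClosure F) (y n) (hZ n) (N n) (hN n) (hNo n) (hNf n)
  have hRep : ∀ n, Nonempty (RepData F (SeparableClosure F) (A n) (Fin (N n).index) (y n)) := fun n => (hR n).1
  have hcsa : ∀ n, Algebra.IsCentral F (A n) ∧ IsSimpleRing (A n) ∧ FiniteDimensional F (A n) := by
    intro n
    obtain ⟨R⟩ := hRep n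
    exact hCSA F (SeparableClosure F) (A n) _ _ R
  have hidx : ∀ n, (N n).index ≠ 0 := by
    intro n h
    obtain ⟨R⟩ := hRep n
    obtain ⟨i⟩ := R.ne
    rw [h] at i
    exact i.elim0
  have hT : ∀ n, Nonempty (RepData F (SeparableClosure F) (⨂[F] (_ : Fin ℓ), A n)
      ((_ : Fin ℓ) → Fin (N n).index) (y n ^ ℓ)) := by
    intro n
    have h1 := hPi F (SeparableClosure F) ℓ (fun _ => A n) (fun _ => (N n).index) (fun _ => y n)
      (fun _ => hRep n)
    rw [Finset.prod_const, Finset.card_univ, Fintype.card_fin] at h1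
    exact h1
  refine ⟨A, i1, i2, hcsa, ?_, ?_, ?_⟩
  · intro m
    refine ⟨fun e => ?_⟩
    obtain ⟨R⟩ := hRep 0
    haveI := (hcsa 0).2.1
    have hm := matrix_nontrivial_ne e
    obtain ⟨R1⟩ := hOne F (SeparableClosure F) m hm
    obtain ⟨R2⟩ := (hOp F (SeparableClosure F) (Matrix (Fin m) (Fin m) F) (Fin m) 1 R1).2.1 (A 0) e.symm
    have := hUniq F (SeparableClosure F) (A 0) (A 0) _ _ _ _ R R2 1 1 one_ne_zero one_ne_zero AlgEquiv.refl
    rw [inv_one, mul_one] at this
    exact h0 this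
  · obtain ⟨R⟩ := hT 0
    obtain ⟨R1⟩ := (hOp F (SeparableClosure F) _ _ _ R).1 (Fin ((N 0).index ^ ℓ))
      (Fintype.equivOfCardEq (by
        rw [Fintype.card_pi, Finset.prod_const, Finset.card_univ, Fintype.card_fin, Fintype.card_fin,
          Fintype.card_fin]))
    exact ⟨_, split_of_B2 hOp hOne hConv (pow_ne_zero _ (hidx 0)) R1 h7⟩
  · intro n
    obtain ⟨R⟩ := hT (n + 1)
    obtain ⟨R'⟩ := hRep n
    have hB : y (n + 1) ^ ℓ * (y n)⁻¹ ∈ B2 (SeparableClosure F ≃ₐ[F] SeparableClosure F)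
        (SeparableClosure F)ˣ := by
      have := inv_mem (hstep n)
      rw [mul_inv_rev, inv_inv] at this
      exact this
    obtain ⟨S⟩ := repIdx hOp R (N n).index (hidx n) ((N (n + 1)).index ^ ℓ * (N n).index) (by
      rw [Fintype.card_pi, Finset.prod_const, Finset.card_univ, Fintype.card_fin, Fintype.card_fin]) (y n) hB
    obtain ⟨S'⟩ := repIdx hOp R' ((N (n + 1)).index ^ ℓ) (pow_ne_zero _ (hidx (n + 1)))
      ((N (n + 1)).index ^ ℓ * (N n).index) (by
        rw [Fintype.card_fin, mul_comm]) (y n) (by rw [mul_inv_cancel]; exact one_mem _)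
    exact ⟨_, _, hidx n, pow_ne_zero _ (hidx (n + 1)), hConv F (SeparableClosure F) _ _ _ _ S S'⟩

end BRP.H50
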