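import Pool.Agent.Lib.MP_defcf3_al.BRP.H50.FinalC
import Pool.Agent.Lib.MP_defcf3_al.BRP.H50.FinalD
import Pool.Agent.Lib.MP_defcf3_al.BRP.H50.Seq

/-! Final assembly, cyclic descent from F(ζ). -/

open scoped TensorProduct

namespace BRP.H50

universe u

variable {ℓ : ℕ} [Fact ℓ.Prime] [Fact (Odd ℓ)]


open BR7 BR7.H50

/-- An algebra whose class is in the subgroup generated by the cyclic classes. -/
theorem cyc_to_alg
    (hOp : RepOpStatement.{u, 0}) (hRepZ : RepZStatement.{u, 0})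
    (hOne : RepOneStatement.{u}) (hConv : ConvStatement.{u, 0})
    (hGZ : GcupZStatement.{u}) (hDisc : DiscStatement.{u}) (hPi : PiStatement.{u})
    (hCyc : CycAlgStatement.{u} ℓ) (hCSA : RepCSAStatement.{u, 0}) (hDeg : DegSevenStatement.{u} ℓ)
    (hUniq : UniqStatement.{u}) {F : Type u} [Field F] {A : Type u} [Ring A] [Algebra F A] {n : ℕ}
    {f : (SeparableClosure F ≃ₐ[F] SeparableClosure F) → (SeparableClosure F ≃ₐ[F] SeparableClosure F) →
      (SeparableClosure F)ˣ}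
    (R : RepData F (SeparableClosure F) A (Fin n) f)
    (hC : cls (SeparableClosure F ≃ₐ[F] SeparableClosure F) (SeparableClosure F)ˣ f ∈
      Subgroup.closure {s | ∃ (a : (SeparableClosure F)ˣ)
        (χ : (SeparableClosure F ≃ₐ[F] SeparableClosure F) → ZMod ℓ), InF F a ∧
        (∀ g h, χ (g * h) = χ g + χ h) ∧ IsLocallyConstant χ ∧
        s = cls (SeparableClosure F ≃ₐ[F] SeparableClosure F) (SeparableClosure F)ˣ (cup ℓ a χ)}) :
    ∃ (k : ℕ) (B : Fin k → Type u) (_ : ∀ i, Ring (B i)) (_ : ∀ i, Algebra F (B i)),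
        (∀ i, Algebra.IsCentral F (B i) ∧ Module.finrank F (B i) = ℓ ^ 2 ∧ (∀ b : B i, b ≠ 0 → IsUnit b) ∧
          ∃ (K : Type u) (_ : Field K) (_ : Algebra F K), IsGalois F K ∧ Module.finrank F K = ℓ ∧
            Nonempty (K →ₐ[F] B i)) ∧
        ∃ p q : ℕ, p ≠ 0 ∧ q ≠ 0 ∧
          Nonempty (Matrix (Fin p) (Fin p) A ≃ₐ[F] Matrix (Fin q) (Fin q) (⨂[F] i, B i)) := by
  have hZ := hRepZ F (SeparableClosure F) A (Fin n) f R
  have hl0 := (Fact.out : Nat.Prime ℓ).ne_zero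
  have hcZ := fun a χ ha hχ hχc => cupResZ (ℓ := ℓ) hGZ hDisc F (SeparableClosure F) a χ ha hχ hχc
  obtain ⟨k, a, χ, h1, h2, h3, h4, h5⟩ := list_form hcZ _ hC
  have hne : ∀ i, ∃ g, χ i g ≠ 0 := by
    intro i
    by_contra hcon
    push Not at hcon
    exact h4 i (cup_zero_B2 _ _ hcon)
  choose B i1 i2 hRep hK using fun i => hCyc F (SeparableClosure F) (a i) (χ i) (h1 i) (h2 i) (h3 i) (hne i)
  have hprodZ : (∏ i, cup ℓ (a i) (χ i)) ∈ Z2 (SeparableClosure F ≃ₐ[F] SeparableClosure F)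
      (SeparableClosure F)ˣ := prod_mem fun i _ => hcZ _ _ (h1 i) (h2 i) (h3 i)
  have hn0 : n ≠ 0 := by
    rintro rfl
    obtain ⟨i⟩ := R.ne
    exact i.elim0
  refine ⟨k, B, i1, i2, ?_, ?_⟩
  · intro i
    obtain ⟨Ri⟩ := hRep i
    obtain ⟨c1, c2, c3⟩ := hCSA F (SeparableClosure F) (B i) (Fin ℓ) _ Ri
    have hdim : Module.finrank F (B i) = ℓ ^ 2 := by
      rw [Ri.dim, Fintype.card_fin]
    refine ⟨c1, hdim, ?_, hK i⟩
    rcases hDeg F (B i) hdim with ⟨⟨e⟩⟩ | h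
    · exfalso
      obtain ⟨R1⟩ := hOne F (SeparableClosure F) ℓ hl0
      obtain ⟨R2⟩ := (hOp F (SeparableClosure F) (Matrix (Fin ℓ) (Fin ℓ) F) (Fin ℓ) 1 R1).2.1 (B i) e.symm
      have := hUniq F (SeparableClosure F) (B i) (B i) ℓ ℓ _ _ Ri R2 1 1 one_ne_zero one_ne_zero AlgEquiv.refl
      rw [inv_one, mul_one] at this
      exact h4 i this
    · exact h
  · obtain ⟨P⟩ := hPi F (SeparableClosure F) k B (fun _ => ℓ) _ hRep
    have hf : f * (∏ i, cup ℓ (a i) (χ i))⁻¹ ∈ B2 (SeparableClosure F ≃ₐ[F] SeparableClosure F)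
      (SeparableClosure F)ˣ := (cls_eq_iff hZ hprodZ).mp h5
    obtain ⟨N1⟩ := repIdx hOp R (ℓ ^ k) (pow_ne_zero _ hl0) (n * ℓ ^ k) (by rw [Fintype.card_fin]) _ hf
    obtain ⟨N2⟩ := repIdx hOp P n hn0 (n * ℓ ^ k) (by
      rw [Fintype.card_pi, Finset.prod_const, Fintype.card_fin,
        Finset.card_univ, Fintype.card_fin]; ring) (∏ i, cup ℓ (a i) (χ i)) (by
      rw [mul_inv_cancel]; exact one_mem _)
    exact ⟨ℓ ^ k, n, pow_ne_zero _ hl0, hn0, hConv F (SeparableClosure F) _ _ _ _ N1 N2⟩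

theorem coprime_kill {M : Type*} [Group M] (x : M) (a b : ℕ) (h : Nat.Coprime a b) (ha : x ^ a = 1)
    (hb : x ^ b = 1) : x = 1 := by
  rw [← orderOf_eq_one_iff]
  exact Nat.eq_one_of_dvd_coprimes h (orderOf_dvd_of_pow_eq_one ha) (orderOf_dvd_of_pow_eq_one hb)

theorem mul_pow_one {M : Type*} [Group M] (x y : M) (h : Commute x y) (n : ℕ) (hx : x ^ n = 1)
    (hy : y ^ n = 1) : (x * y) ^ n = 1 := by
  rw [h.mul_pow, hx, hy, one_mul]

/-- Theorem S: cyclic descent from F(ζ) to F. -/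
theorem finalE {d : ℕ} (hCohS : CohSStatement.{u} ℓ d) (hFac : CycFacStatement.{u} ℓ) (hDet : DetStatement.{u})
    (hBL : BaseLStatement.{u, 0}) (hLT : LTransStatement.{u} ℓ) (hSadd : SymAddStatement.{u} ℓ)
    (hCR : CorResStatement.{u}) (hInd : IndexStatement.{u} ℓ) (hBS : BaseSimpleStatement.{u})
    (hRepEx : RepExStatement.{u}) (hRepZ : RepZStatement.{u, 0}) (hOp : RepOpStatement.{u, 0})
    (hOne : RepOneStatement.{u}) (hConv : ConvStatement.{u, 0})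
    (hGZ : GcupZStatement.{u}) (hDisc : DiscStatement.{u}) (hPi : PiStatement.{u})
    (hCyc : CycAlgStatement.{u} ℓ) (hCSA : RepCSAStatement.{u, 0}) (hDeg : DegSevenStatement.{u} ℓ)
    (hUniq : UniqStatement.{u}) :
    ∀ (F L : Type u) [Field F] [Field L] [Algebra F L], ((ℓ : ℕ) : F) ≠ 0 → IsCyclotomicExtension {ℓ} F L →
      Module.finrank F L = d →
      ∀ (A : Type u) [Ring A] [Algebra F A] [Algebra.IsCentral F A] [IsSimpleRing A] (m : ℕ),
      Module.finrank F A = (ℓ ^ 2) ^ m →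
      ∀ (k : ℕ) (B : Fin k → Type u) [∀ i, Ring (B i)] [∀ i, Algebra L (B i)],
      (∀ i, Algebra.IsCentral L (B i) ∧ IsSimpleRing (B i) ∧ Module.finrank L (B i) = ℓ ^ 2 ∧
        ∃ (K : Type u) (_ : Field K) (_ : Algebra L K), IsGalois L K ∧ Module.finrank L K = ℓ ∧
          Nonempty (K →ₐ[L] B i)) →
      (∃ p q : ℕ, p ≠ 0 ∧ q ≠ 0 ∧
        Nonempty (Matrix (Fin p) (Fin p) (L ⊗[F] A) ≃ₐ[L] Matrix (Fin q) (Fin q) (⨂[L] i, B i))) →
      ∃ (l : ℕ) (C : Fin l → Type u) (_ : ∀ i, Ring (C i)) (_ : ∀ i, Algebra F (C i)),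
        (∀ i, Algebra.IsCentral F (C i) ∧ Module.finrank F (C i) = ℓ ^ 2 ∧ (∀ b : C i, b ≠ 0 → IsUnit b) ∧
          ∃ (K : Type u) (_ : Field K) (_ : Algebra F K), IsGalois F K ∧ Module.finrank F K = ℓ ∧
            Nonempty (K →ₐ[F] C i)) ∧
        ∃ p q : ℕ, p ≠ 0 ∧ q ≠ 0 ∧
          Nonempty (Matrix (Fin p) (Fin p) A ≃ₐ[F] Matrix (Fin q) (Fin q) (⨂[F] i, C i)) := by
  intro F L _ _ _ h7 hL hd A _ _ _ _ m hA k B _ _ hB ⟨p, q, hp, hq, ⟨e⟩⟩
  have hl0 := (Fact.out : Nat.Prime ℓ).ne_zero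
  have : NeZero ((ℓ : ℕ) : F) := ⟨h7⟩
  have hfd : FiniteDimensional F A := Module.finite_of_finrank_pos (by rw [hA]; positivity)
  have hfdL : FiniteDimensional F L := IsCyclotomicExtension.finiteDimensional {ℓ} F L
  have hsep : Algebra.IsSeparable F L := IsCyclotomicExtension.isSeparable {ℓ} F L
  -- embed L into the separable closure of F
  let φ : L →ₐ[F] SeparableClosure F := IsSepClosed.lift
  letI : Algebra L (SeparableClosure F) := φ.toRingHom.toAlgebra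
  haveI : IsScalarTower F L (SeparableClosure F) := IsScalarTower.of_algebraMap_eq' φ.comp_algebraMap.symm
  haveI : IsGalois L (SeparableClosure F) := IsGalois.tower_top_of_isGalois F L (SeparableClosure F)
  obtain ⟨n, f, ⟨R⟩⟩ := hRepEx F (SeparableClosure F) A
  have hZ := hRepZ F (SeparableClosure F) A (Fin n) f R
  have hn : n = ℓ ^ m := by
    have h1 := R.dim
    rw [hA, Fintype.card_fin] at h1
    have h2 : n ^ 2 = (ℓ ^ m) ^ 2 := by
      rw [← h1, ← pow_mul, ← pow_mul, mul_comm 2 m]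
    exact deg_eq h2
  obtain ⟨RL⟩ := hBL F L (SeparableClosure F) A (Fin n) f R
  -- the algebras over L
  have hBi : ∀ i, ∃ fi : (SeparableClosure F ≃ₐ[L] SeparableClosure F) →
      (SeparableClosure F ≃ₐ[L] SeparableClosure F) → (SeparableClosure F)ˣ,
      Nonempty (RepData L (SeparableClosure F) (B i) (Fin ℓ) fi) := by
    intro i
    obtain ⟨b1, b2, b3, -⟩ := hB i
    haveI : FiniteDimensional L (B i) := Module.finite_of_finrank_pos (by rw [b3]; positivity)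
    obtain ⟨ni, fi, ⟨Ri⟩⟩ := hRepEx L (SeparableClosure F) (B i)
    have hni : ni = ℓ := by
      have h1 := Ri.dim
      rw [b3, Fintype.card_fin] at h1
      exact deg_eq h1.symm
    rw [hni] at Ri
    exact ⟨fi, ⟨Ri⟩⟩
  choose fB hRB using hBi
  have hcf : ∀ i, ∃ (a : (SeparableClosure F)ˣ) (χ : (SeparableClosure F ≃ₐ[L] SeparableClosure F) → ZMod ℓ),
      InF L a ∧ (∀ g h, χ (g * h) = χ g + χ h) ∧ IsLocallyConstant χ ∧
      fB i * (cup ℓ a χ)⁻¹ ∈ B2 (SeparableClosure F ≃ₐ[L] SeparableClosure F) (SeparableClosure F)ˣ := by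
    intro i
    obtain ⟨b1, b2, b3, K, k1, k2, k3, k4, ⟨k5⟩⟩ := hB i
    obtain ⟨Ri⟩ := hRB i
    exact hFac L (SeparableClosure F) (B i) (fB i) Ri K k3 k4 k5
  choose a χ c1 c2 c3 c4 using hcf
  obtain ⟨P⟩ := hPi L (SeparableClosure F) k B (fun _ => ℓ) fB hRB
  obtain ⟨P'⟩ := (hOp L (SeparableClosure F) _ _ _ P).1 (Fin (ℓ ^ k)) (Fintype.equivOfCardEq (by
      rw [Fintype.card_pi, Finset.prod_const, Fintype.card_fin, Fintype.card_fin,
        Finset.card_univ, Fintype.card_fin]))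
  have hU := hUniq L (SeparableClosure F) (L ⊗[F] A) (⨂[L] i, B i) n (ℓ ^ k) _ _ RL P' p q hp hq e
  have hU2 : (fun g h : SeparableClosure F ≃ₐ[L] SeparableClosure F =>
      f (g.restrictScalars F) (h.restrictScalars F)) * (∏ i, cup ℓ (a i) (χ i))⁻¹ ∈
      B2 (SeparableClosure F ≃ₐ[L] SeparableClosure F) (SeparableClosure F)ˣ := by
    have h1 : (∏ i, fB i) * (∏ i, cup ℓ (a i) (χ i))⁻¹ ∈
        B2 (SeparableClosure F ≃ₐ[L] SeparableClosure F) (SeparableClosure F)ˣ := by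
      rw [← Finset.prod_inv_distrib, ← Finset.prod_mul_distrib]
      exact prod_mem fun i _ => c4 i
    have h2 := mul_mem hU h1
    rw [mul_assoc, inv_mul_cancel_left] at h2
    exact h2
  have hζ1 : ∃ ζ : (SeparableClosure F)ˣ, IsPrimitiveRoot ζ ℓ ∧ (HZ F ζ).index = Module.finrank F L := by
    obtain ⟨ζ, hζ⟩ := exists_zeta (ℓ := ℓ) F h7
    exact ⟨ζ, hζ, index_HZ hζ hL φ⟩
  obtain ⟨ζ, hζ, hidx⟩ := hζ1
  have hS := hLT F L (SeparableClosure F) ζ hζ hL f hZ k a χ c1 c2 c3 hU2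
  -- the class has order dividing ℓ
  obtain ⟨i1, i2, i3⟩ := hInd F (SeparableClosure F) ζ hζ ⊤ isOpen_univ
  rw [top_inf_eq] at i1 i2 i3
  rw [Subgroup.relIndex_top_right] at i3
  have h7L : cls (HZ F ζ) (SeparableClosure F)ˣ (fun g h : HZ F ζ => f g h) ^ ℓ = 1 := by
    refine Subgroup.closure_induction (p := fun x _ => x ^ ℓ = 1) ?_ ?_ ?_ ?_ hS
    · rintro s ⟨a, b, ha, hb, rfl⟩
      exact (hSadd F (SeparableClosure F) ζ hζ).2.2.2 a b ha hb
    · exact one_pow _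
    · intro x y _ _ hx hy
      have hc : Commute x y := by
        obtain ⟨x', rfl⟩ := QuotientGroup.mk_surjective x
        obtain ⟨y', rfl⟩ := QuotientGroup.mk_surjective y
        show (QuotientGroup.mk (x' * y') : H2 (HZ F ζ) (SeparableClosure F)ˣ) = QuotientGroup.mk (y' * x')
        rw [mul_comm]
      exact mul_pow_one x y hc ℓ hx hy
    · intro x _ hx
      rw [inv_pow, hx, inv_one]
  have h7c : cls (SeparableClosure F ≃ₐ[F] SeparableClosure F) (SeparableClosure F)ˣ f ^ ℓ = 1 := by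
    have r1 : (fun g h : HZ F ζ => (f ^ ℓ) g h) ∈ B2 (HZ F ζ) (SeparableClosure F)ˣ := by
      have h1 : (fun g h : HZ F ζ => (f ^ ℓ) g h) = (fun g h : HZ F ζ => f g h) ^ ℓ := rfl
      rw [h1, ← cls_one_iff (pow_mem (res_Z2 _ hZ) _), cls_pow (res_Z2 _ hZ)]
      exact h7L
    have r2 := hCR (SeparableClosure F ≃ₐ[F] SeparableClosure F) (SeparableClosure F)ˣ
      (hDisc F (SeparableClosure F)) (HZ F ζ) i1 i2 (f ^ ℓ) (pow_mem hZ ℓ) r1
    rw [← cls_one_iff (pow_mem (pow_mem hZ _) _), cls_pow (pow_mem hZ _), cls_pow hZ] at r2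
    have r3 := hDet F (SeparableClosure F) A n f R
    rw [← cls_one_iff (pow_mem hZ _), cls_pow hZ, hn] at r3
    refine coprime_kill _ _ (ℓ ^ m) (Nat.Coprime.pow_right m i3) r2 ?_
    rw [← pow_mul, mul_comm, pow_mul, r3, one_pow]
  have hC := hCohS F (SeparableClosure F) ζ hζ (hidx.trans hd) f hZ h7c hS
  exact cyc_to_alg hOp hRepZ hOne hConv hGZ hDisc hPi hCyc hCSA hDeg hUniq R hC

end BRP.H50
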