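import Pool.Agent.Lib.MP_defcf3_al.BRP.H50.FinalE

/-! Final assembly: descent of products of algebras of degree ℓ from F(ζ) to F. -/

open scoped TensorProduct

namespace BRP.H50

universe u

variable {ℓ : ℕ} [Fact ℓ.Prime] [Fact (Odd ℓ)]

open BR7 BR7.H50

/-- The subgroup generated by the cyclic classes. -/
def cycGrp (ℓ : ℕ) (F Ω : Type u) [Field F] [Field Ω] [Algebra F Ω] : Subgroup (H2 (Ω ≃ₐ[F] Ω) Ωˣ) :=
  Subgroup.closure {s | ∃ (a : Ωˣ) (χ : (Ω ≃ₐ[F] Ω) → ZMod ℓ), InF F a ∧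
        (∀ g h, χ (g * h) = χ g + χ h) ∧ IsLocallyConstant χ ∧ s = cls (Ω ≃ₐ[F] Ω) Ωˣ (cup ℓ a χ)}

/-- If ζ comes from the base field then its stabilizer is everything. -/
theorem index_one {F L Ω : Type u} [Field F] [Field L] [Field Ω] [Algebra F L] [Algebra L Ω]
    {ζ : Ωˣ} (hζ : IsPrimitiveRoot ζ ℓ) (hL : IsCyclotomicExtension {ℓ} F L) :
    (HZ L ζ).index = 1 := by
  obtain ⟨z, hz⟩ := hL.exists_isPrimitiveRoot (Set.mem_singleton ℓ) (Fact.out : Nat.Prime ℓ).ne_zero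
  have hz' : IsPrimitiveRoot (algebraMap L Ω z) ℓ := hz.map_of_injective (algebraMap L Ω).injective
  have hζ' : IsPrimitiveRoot (ζ : Ω) ℓ := IsPrimitiveRoot.coe_units_iff.2 hζ
  haveI : NeZero ℓ := ⟨(Fact.out : Nat.Prime ℓ).ne_zero⟩
  obtain ⟨i, -, hi⟩ := hz'.eq_pow_of_pow_eq_one hζ'.pow_eq_one
  rw [Subgroup.index_eq_one, eq_top_iff]
  intro g _
  rw [HZ, MulAction.mem_stabilizer_iff]
  refine Units.ext ?_
  change g (ζ : Ω) = ζ
  rw [← hi, map_pow, g.commutes]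

/-- The class of a division algebra of degree ℓ. -/
theorem div_class {d : ℕ} (hCohC : CohCStatement.{u} ℓ d) (hDiv : DivSevenStatement.{u} ℓ)
    (hRepZ : RepZStatement.{u, 0})
    {F Ω : Type u} [Field F] [Field Ω] [Algebra F Ω] [IsGalois F Ω] [IsSepClosed Ω]
    (h7 : ((ℓ : ℕ) : F) ≠ 0) {ζ : Ωˣ} (hζ : IsPrimitiveRoot ζ ℓ) (hidx : (HZ F ζ).index = d)
    (D : Type u) [DivisionRing D] [Algebra F D] [Algebra.IsCentral F D]
    (f : (Ω ≃ₐ[F] Ω) → (Ω ≃ₐ[F] Ω) → Ωˣ) (R : RepData F Ω D (Fin ℓ) f) :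
    cls (Ω ≃ₐ[F] Ω) Ωˣ f ∈ cycGrp ℓ F Ω := by
  have hZ := hRepZ F Ω D (Fin ℓ) f R
  obtain ⟨H, hH, hI, hB⟩ := hDiv F Ω h7 D f R
  exact hCohC F Ω ζ hζ hidx f hZ H hH hI hB

/-- The class of a central simple algebra of degree ℓ. -/
theorem deg_class {d : ℕ} (hCohC : CohCStatement.{u} ℓ d) (hDiv : DivSevenStatement.{u} ℓ)
    (hRepZ : RepZStatement.{u, 0}) (hOp : RepOpStatement.{u, 0}) (hOne : RepOneStatement.{u})
    (hUniq : UniqStatement.{u}) (hDeg : DegSevenStatement.{u} ℓ)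
    {F Ω : Type u} [Field F] [Field Ω] [Algebra F Ω] [IsGalois F Ω] [IsSepClosed Ω]
    (h7 : ((ℓ : ℕ) : F) ≠ 0) {ζ : Ωˣ} (hζ : IsPrimitiveRoot ζ ℓ) (hidx : (HZ F ζ).index = d)
    (B : Type u) [Ring B] [Algebra F B] [Algebra.IsCentral F B] [IsSimpleRing B]
    (hdim : Module.finrank F B = ℓ ^ 2)
    (f : (Ω ≃ₐ[F] Ω) → (Ω ≃ₐ[F] Ω) → Ωˣ) (R : RepData F Ω B (Fin ℓ) f) :
    cls (Ω ≃ₐ[F] Ω) Ωˣ f ∈ cycGrp ℓ F Ω := by
  have hl0 := (Fact.out : Nat.Prime ℓ).ne_zero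
  rcases hDeg F B hdim with ⟨⟨e⟩⟩ | h
  · obtain ⟨R1⟩ := hOne F Ω ℓ hl0
    obtain ⟨R2⟩ := (hOp F Ω (Matrix (Fin ℓ) (Fin ℓ) F) (Fin ℓ) 1 R1).2.1 B e.symm
    have h1 := hUniq F Ω B B ℓ ℓ _ _ R R2 1 1 one_ne_zero one_ne_zero AlgEquiv.refl
    rw [inv_one, mul_one] at h1
    have h2 : cls (Ω ≃ₐ[F] Ω) Ωˣ f = 1 := (cls_one_iff (hRepZ F Ω B (Fin ℓ) f R)).mpr h1
    rw [h2]
    exact one_mem _
  · letI : DivisionRing B := DivisionRing.ofIsUnitOrEqZero fun a => by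
      by_cases ha : a = 0
      · exact Or.inr ha
      · exact Or.inl (h a ha)
    exact div_class hCohC hDiv hRepZ h7 hζ hidx B f R

/-- The class over F of an algebra which becomes a product of algebras of degree ℓ over F(ζ). -/
theorem classG {d : ℕ} (hCohS : CohSStatement.{u} ℓ d) (hCohC1 : CohCStatement.{u} ℓ 1)
    (hDiv : DivSevenStatement.{u} ℓ) (hDet : DetStatement.{u})
    (hBL : BaseLStatement.{u, 0}) (hLT : LTransStatement.{u} ℓ) (hSadd : SymAddStatement.{u} ℓ)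
    (hCR : CorResStatement.{u}) (hInd : IndexStatement.{u} ℓ)
    (hRepEx : RepExStatement.{u}) (hRepZ : RepZStatement.{u, 0}) (hOp : RepOpStatement.{u, 0})
    (hOne : RepOneStatement.{u}) (hGZ : GcupZStatement.{u}) (hDisc : DiscStatement.{u})
    (hPi : PiStatement.{u}) (hDeg : DegSevenStatement.{u} ℓ) (hUniq : UniqStatement.{u}) :
    ∀ (F L : Type u) [Field F] [Field L] [Algebra F L], ((ℓ : ℕ) : F) ≠ 0 → IsCyclotomicExtension {ℓ} F L →
      Module.finrank F L = d →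
      ∀ (A : Type u) [Ring A] [Algebra F A] [Algebra.IsCentral F A] [IsSimpleRing A] (m : ℕ),
      Module.finrank F A = (ℓ ^ 2) ^ m →
      ∀ (k : ℕ) (B : Fin k → Type u) [∀ i, Ring (B i)] [∀ i, Algebra L (B i)],
      (∀ i, Algebra.IsCentral L (B i) ∧ IsSimpleRing (B i) ∧ Module.finrank L (B i) = ℓ ^ 2) →
      (∃ p q : ℕ, p ≠ 0 ∧ q ≠ 0 ∧
        Nonempty (Matrix (Fin p) (Fin p) (L ⊗[F] A) ≃ₐ[L] Matrix (Fin q) (Fin q) (⨂[L] i, B i))) →
      ∃ (n : ℕ) (f : (SeparableClosure F ≃ₐ[F] SeparableClosure F) →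
        (SeparableClosure F ≃ₐ[F] SeparableClosure F) → (SeparableClosure F)ˣ),
        n ≠ 0 ∧ Nonempty (RepData F (SeparableClosure F) A (Fin n) f) ∧
        cls (SeparableClosure F ≃ₐ[F] SeparableClosure F) (SeparableClosure F)ˣ f ∈
          cycGrp ℓ F (SeparableClosure F) := by
  intro F L _ _ _ h7 hL hd A _ _ _ _ m hA k B _ _ hB ⟨p, q, hp, hq, ⟨e⟩⟩
  have hl0 := (Fact.out : Nat.Prime ℓ).ne_zero
  have : NeZero ((ℓ : ℕ) : F) := ⟨h7⟩
  have hfd : FiniteDimensional F A := Module.finite_of_finrank_pos (by rw [hA]; positivity)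
  have hfdL : FiniteDimensional F L := IsCyclotomicExtension.finiteDimensional {ℓ} F L
  have hsep : Algebra.IsSeparable F L := IsCyclotomicExtension.isSeparable {ℓ} F L
  have h7L : ((ℓ : ℕ) : L) ≠ 0 := by
    rw [← map_natCast (algebraMap F L) ℓ]
    exact (map_ne_zero (algebraMap F L)).mpr h7
  -- embed L into the separable closure of F
  let φ : L →ₐ[F] SeparableClosure F := IsSepClosed.lift
  letI : Algebra L (SeparableClosure F) := φ.toRingHom.toAlgebra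
  haveI : IsScalarTower F L (SeparableClosure F) := IsScalarTower.of_algebraMap_eq' φ.comp_algebraMap.symm
  haveI : IsGalois L (SeparableClosure F) := IsGalois.tower_top_of_isGalois F L (SeparableClosure F)
  obtain ⟨n, f, ⟨R⟩⟩ := hRepEx F (SeparableClosure F) A
  have hZ := hRepZ F (SeparableClosure F) A (Fin n) f R
  have hn0 : n ≠ 0 := by
    rintro rfl
    obtain ⟨i⟩ := R.ne
    exact i.elim0
  have hn : n = ℓ ^ m := by
    have h1 := R.dim
    rw [hA, Fintype.card_fin] at h1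
    have h2 : n ^ 2 = (ℓ ^ m) ^ 2 := by
      rw [← h1, ← pow_mul, ← pow_mul, mul_comm 2 m]
    exact deg_eq h2
  obtain ⟨RL⟩ := hBL F L (SeparableClosure F) A (Fin n) f R
  have hζ1 : ∃ ζ : (SeparableClosure F)ˣ, IsPrimitiveRoot ζ ℓ ∧ (HZ F ζ).index = Module.finrank F L := by
    obtain ⟨ζ, hζ⟩ := exists_zeta (ℓ := ℓ) F h7
    exact ⟨ζ, hζ, index_HZ hζ hL φ⟩
  obtain ⟨ζ, hζ, hidx⟩ := hζ1
  have hidxL : (HZ L ζ).index = 1 := index_one hζ hL
  -- the algebras over L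
  have hBi : ∀ i, ∃ fi : (SeparableClosure F ≃ₐ[L] SeparableClosure F) →
      (SeparableClosure F ≃ₐ[L] SeparableClosure F) → (SeparableClosure F)ˣ,
      Nonempty (RepData L (SeparableClosure F) (B i) (Fin ℓ) fi) := by
    intro i
    obtain ⟨b1, b2, b3⟩ := hB i
    haveI : FiniteDimensional L (B i) := Module.finite_of_finrank_pos (by rw [b3]; positivity)
    obtain ⟨ni, fi, ⟨Ri⟩⟩ := hRepEx L (SeparableClosure F) (B i)
    have hni : ni = ℓ := by
      have h1 := Ri.dim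
      rw [b3, Fintype.card_fin] at h1
      exact deg_eq h1.symm
    rw [hni] at Ri
    exact ⟨fi, ⟨Ri⟩⟩
  choose fB hRB using hBi
  have hZB : ∀ i, fB i ∈ Z2 (SeparableClosure F ≃ₐ[L] SeparableClosure F) (SeparableClosure F)ˣ := by
    intro i
    obtain ⟨Ri⟩ := hRB i
    exact hRepZ L (SeparableClosure F) (B i) (Fin ℓ) (fB i) Ri
  have hcB : ∀ i, cls (SeparableClosure F ≃ₐ[L] SeparableClosure F) (SeparableClosure F)ˣ (fB i) ∈
      cycGrp ℓ L (SeparableClosure F) := by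
    intro i
    obtain ⟨b1, b2, b3⟩ := hB i
    obtain ⟨Ri⟩ := hRB i
    exact deg_class hCohC1 hDiv hRepZ hOp hOne hUniq hDeg h7L hζ hidxL (B i) b3 (fB i) Ri
  have hprod : ∀ s : Finset (Fin k), (∏ i ∈ s, fB i) ∈
      Z2 (SeparableClosure F ≃ₐ[L] SeparableClosure F) (SeparableClosure F)ˣ ∧
      cls (SeparableClosure F ≃ₐ[L] SeparableClosure F) (SeparableClosure F)ˣ (∏ i ∈ s, fB i) ∈
      cycGrp ℓ L (SeparableClosure F) := by
    intro s
    induction s using Finset.induction_on with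
    | empty =>
      rw [Finset.prod_empty]
      refine ⟨one_mem _, ?_⟩
      rw [(cls_one_iff (one_mem _)).mpr (one_mem _)]
      exact one_mem _
    | insert i s his ih =>
      rw [Finset.prod_insert his]
      refine ⟨mul_mem (hZB i) ih.1, ?_⟩
      rw [cls_mul (hZB i) ih.1]
      exact mul_mem (hcB i) ih.2
  have hcZL := fun a χ ha hχ hχc => cupResZ (ℓ := ℓ) hGZ hDisc L (SeparableClosure F) a χ ha hχ hχc
  obtain ⟨k', a, χ, c1, c2, c3, -, c5⟩ := list_form hcZL _ (hprod Finset.univ).2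
  have hcupZ : (∏ i, cup ℓ (a i) (χ i)) ∈ Z2 (SeparableClosure F ≃ₐ[L] SeparableClosure F)
      (SeparableClosure F)ˣ := prod_mem fun i _ => hcZL _ _ (c1 i) (c2 i) (c3 i)
  obtain ⟨P⟩ := hPi L (SeparableClosure F) k B (fun _ => ℓ) fB hRB
  obtain ⟨P'⟩ := (hOp L (SeparableClosure F) _ _ _ P).1 (Fin (ℓ ^ k)) (Fintype.equivOfCardEq (by
      rw [Fintype.card_pi, Finset.prod_const, Fintype.card_fin, Fintype.card_fin,
        Finset.card_univ, Fintype.card_fin]))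
  have hU := hUniq L (SeparableClosure F) (L ⊗[F] A) (⨂[L] i, B i) n (ℓ ^ k) _ _ RL P' p q hp hq e
  have hU2 : (fun g h : SeparableClosure F ≃ₐ[L] SeparableClosure F =>
      f (g.restrictScalars F) (h.restrictScalars F)) * (∏ i, cup ℓ (a i) (χ i))⁻¹ ∈
      B2 (SeparableClosure F ≃ₐ[L] SeparableClosure F) (SeparableClosure F)ˣ := by
    have h1 : (∏ i, fB i) * (∏ i, cup ℓ (a i) (χ i))⁻¹ ∈
        B2 (SeparableClosure F ≃ₐ[L] SeparableClosure F) (SeparableClosure F)ˣ :=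
      (cls_eq_iff (hprod Finset.univ).1 hcupZ).mp c5
    have h2 := mul_mem hU h1
    rw [mul_assoc, inv_mul_cancel_left] at h2
    exact h2
  have hS := hLT F L (SeparableClosure F) ζ hζ hL f hZ k' a χ c1 c2 c3 hU2
  -- the class has order dividing ℓ
  obtain ⟨i1, i2, i3⟩ := hInd F (SeparableClosure F) ζ hζ ⊤ isOpen_univ
  rw [top_inf_eq] at i1 i2 i3
  rw [Subgroup.relIndex_top_right] at i3
  have h7L : cls (HZ F ζ) (SeparableClosure F)ˣ (fun g h : HZ F ζ => f g h) ^ ℓ = 1 := by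
    refine Subgroup.closure_induction (p := fun x _ => x ^ ℓ = 1) ?_ ?_ ?_ ?_ hS
    · rintro s ⟨a, b, ha, hb, rfl⟩
      exact (hSadd F (SeparableClosure F) ζ hζ).2.2.2 a b ha hb
    · exact one_pow _
    · intro x y _ _ hx hy
      have hc : Commute x y := by
        obtain ⟨x', rfl⟩ := QuotientGroup.mk_surjective x
        obtain ⟨y', rfl⟩ := QuotientGroup.mk_surjective y
        show (QuotientGroup.mk (x' * y') : H2 (HZ F ζ) (SeparableClosure F)ˣ) = QuotientGroup.mk (y' * x')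
        rw [mul_comm]
      exact mul_pow_one x y hc ℓ hx hy
    · intro x _ hx
      rw [inv_pow, hx, inv_one]
  have h7c : cls (SeparableClosure F ≃ₐ[F] SeparableClosure F) (SeparableClosure F)ˣ f ^ ℓ = 1 := by
    have r1 : (fun g h : HZ F ζ => (f ^ ℓ) g h) ∈ B2 (HZ F ζ) (SeparableClosure F)ˣ := by
      have h1 : (fun g h : HZ F ζ => (f ^ ℓ) g h) = (fun g h : HZ F ζ => f g h) ^ ℓ := rfl
      rw [h1, ← cls_one_iff (pow_mem (res_Z2 _ hZ) _), cls_pow (res_Z2 _ hZ)]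
      exact h7L
    have r2 := hCR (SeparableClosure F ≃ₐ[F] SeparableClosure F) (SeparableClosure F)ˣ
      (hDisc F (SeparableClosure F)) (HZ F ζ) i1 i2 (f ^ ℓ) (pow_mem hZ ℓ) r1
    rw [← cls_one_iff (pow_mem (pow_mem hZ _) _), cls_pow (pow_mem hZ _), cls_pow hZ] at r2
    have r3 := hDet F (SeparableClosure F) A n f R
    rw [← cls_one_iff (pow_mem hZ _), cls_pow hZ, hn] at r3
    refine coprime_kill _ _ (ℓ ^ m) (Nat.Coprime.pow_right m i3) r2 ?_
    rw [← pow_mul, mul_comm, pow_mul, r3, one_pow]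
  exact ⟨n, f, hn0, ⟨R⟩, hCohS F (SeparableClosure F) ζ hζ (hidx.trans hd) f hZ h7c hS⟩

/-- If there is no quasicyclic subgroup then an algebra whose class is in the subgroup generated by the cyclic
classes is split. -/
theorem split_or_quasi (hCD : CycDivStatement.{u} ℓ) (hRepZ : RepZStatement.{u, 0})
    (hOp : RepOpStatement.{u, 0}) (hOne : RepOneStatement.{u}) (hConv : ConvStatement.{u, 0})
    (hGZ : GcupZStatement.{u}) (hDisc : DiscStatement.{u}) {F : Type u} [Field F]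
    (h7 : ((ℓ : ℕ) : F) ≠ 0) {A : Type u} [Ring A] [Algebra F A] {n : ℕ} (hn0 : n ≠ 0)
    {f : (SeparableClosure F ≃ₐ[F] SeparableClosure F) → (SeparableClosure F ≃ₐ[F] SeparableClosure F) →
      (SeparableClosure F)ˣ}
    (R : RepData F (SeparableClosure F) A (Fin n) f)
    (hC : cls (SeparableClosure F ≃ₐ[F] SeparableClosure F) (SeparableClosure F)ˣ f ∈
      cycGrp ℓ F (SeparableClosure F))
    (hA : ∀ n : ℕ, IsEmpty (A ≃ₐ[F] Matrix (Fin n) (Fin n) F)) : HasQuasi ℓ F (SeparableClosure F) := by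
  by_contra hno
  have hZ := hRepZ F (SeparableClosure F) A (Fin n) f R
  obtain ⟨ζ, hζ⟩ := exists_zeta (ℓ := ℓ) F h7
  have hcy : ∀ (a : (SeparableClosure F)ˣ) (χ : (SeparableClosure F ≃ₐ[F] SeparableClosure F) → ZMod ℓ),
      InF F a → (∀ g h, χ (g * h) = χ g + χ h) → IsLocallyConstant χ →
      cup ℓ a χ ∈ B2 (SeparableClosure F ≃ₐ[F] SeparableClosure F) (SeparableClosure F)ˣ := by
    intro a χ ha hχ hχc
    by_contra hne
    exact hno (hCD F (SeparableClosure F) ζ hζ a χ ha hχ hχc hne)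
  have hc1 := closure_cyc_trivial (fun a χ ha hχ hχc => cupResZ hGZ hDisc F _ a χ ha hχ hχc) hcy _ hC
  rw [cls_one_iff hZ] at hc1
  obtain ⟨e⟩ := split_of_B2 hOp hOne hConv hn0 R hc1
  exact (hA n).false e

end BRP.H50
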