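import Pool.Agent.Lib.MP_defcf3_al.BRP.H50.Sym

/-! The index of the stabilizer of ζ is the degree of the cyclotomic extension. -/

namespace BRP.H50

universe u

open BR7 BR7.H50 Polynomial

/-- The index of the stabilizer of x is the degree of the minimal polynomial. -/
theorem index_stab {F Ω : Type u} [Field F] [Field Ω] [Algebra F Ω] [IsGalois F Ω] (z : Ωˣ) :
    (HZ F z).index = (minpoly F (z : Ω)).natDegree := by
  rw [HZ, MulAction.index_stabilizer]
  have h1 : (MulAction.orbit (Ω ≃ₐ[F] Ω) z).ncard = ((minpoly F (z : Ω)).rootSet Ω).ncard := by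
    refine Set.ncard_congr (fun a _ => (a : Ω)) ?_ ?_ ?_
    · rintro _ ⟨g, rfl⟩
      rw [mem_rootSet]
      refine ⟨minpoly.ne_zero (Algebra.IsIntegral.isIntegral _), ?_⟩
      have h5 := minpoly.aeval F (z : Ω)
      have h6 : aeval (g (z : Ω)) (minpoly F (z : Ω)) = g (aeval (z : Ω) (minpoly F (z : Ω))) :=
        aeval_algHom_apply (g : Ω →ₐ[F] Ω) (z : Ω) _
      change aeval (g (z : Ω)) _ = 0
      rw [h6, h5, map_zero]
    · intro a b _ _ h
      exact Units.ext h
    · intro x hx
      have h2 := (mem_rootSet.1 hx).2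
      have h3 : minpoly F x = minpoly F (z : Ω) :=
        (minpoly.eq_of_irreducible_of_monic (minpoly.irreducible (Algebra.IsIntegral.isIntegral _)) h2
          (minpoly.monic (Algebra.IsIntegral.isIntegral _))).symm
      obtain ⟨g, hg⟩ := (Normal.minpoly_eq_iff_mem_orbit Ω).1 h3
      refine ⟨g • z, ⟨g, rfl⟩, ?_⟩
      exact hg
  rw [h1, Set.ncard_eq_toFinset_card', Set.toFinset_card]
  exact card_rootSet_eq_natDegree (IsGalois.separable F (z : Ω)) (Normal.splits inferInstance _)

/-- The index of the stabilizer of ζ is the degree of the cyclotomic extension. -/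
theorem index_HZ {ℓ : ℕ} [Fact ℓ.Prime] {F L Ω : Type u} [Field F] [Field L] [Field Ω] [Algebra F L]
    [Algebra F Ω] [IsGalois F Ω] {ζ : Ωˣ} (hp : IsPrimitiveRoot ζ ℓ) (hL : IsCyclotomicExtension {ℓ} F L)
    (φ : L →ₐ[F] Ω) : (HZ F ζ).index = Module.finrank F L := by
  obtain ⟨z, hz⟩ := hL.exists_isPrimitiveRoot (Set.mem_singleton ℓ) (Fact.out : Nat.Prime ℓ).ne_zero
  have hfin : FiniteDimensional F L := IsCyclotomicExtension.finiteDimensional {ℓ} F L
  have htop : IntermediateField.adjoin F {z} = ⊤ := by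
    have h1 := IsCyclotomicExtension.adjoin_primitive_root_eq_top (A := F) (B := L) hz
    rw [← IntermediateField.toSubalgebra_inj, IntermediateField.adjoin_simple_toSubalgebra_of_isAlgebraic
      (Algebra.IsAlgebraic.isAlgebraic z), h1, IntermediateField.top_toSubalgebra]
  have hdeg : Module.finrank F L = (minpoly F z).natDegree := by
    rw [← IntermediateField.adjoin.finrank (Algebra.IsIntegral.isIntegral z), htop,
      IntermediateField.finrank_top']
  have hz' : IsPrimitiveRoot (φ z) ℓ := hz.map_of_injective φ.injective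
  have hz0 : φ z ≠ 0 := hz'.ne_zero (Fact.out : Nat.Prime ℓ).ne_zero
  have hmin : minpoly F (φ z) = minpoly F z := minpoly.algHom_eq φ φ.injective z
  rw [hdeg, ← hmin]
  have h2 := index_stab (F := F) (Units.mk0 (φ z) hz0)
  rw [Units.val_mk0] at h2
  rw [← h2]
  congr 1
  -- the stabilizers agree
  have hu : IsPrimitiveRoot (Units.mk0 (φ z) hz0) ℓ := by
    rw [← IsPrimitiveRoot.coe_units_iff]
    exact hz'
  have key : ∀ a b : Ωˣ, IsPrimitiveRoot a ℓ → IsPrimitiveRoot b ℓ → HZ F a ≤ HZ F b := by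
    intro a b ha hb g hg
    rw [MulAction.mem_stabilizer_iff] at hg ⊢
    have ha' : IsPrimitiveRoot (a : Ω) ℓ := IsPrimitiveRoot.coe_units_iff.2 ha
    have hb' : ((b : Ωˣ) : Ω) ^ ℓ = 1 := by
      rw [← Units.val_pow_eq_pow_val, hb.pow_eq_one, Units.val_one]
    have : NeZero ℓ := ⟨(Fact.out : Nat.Prime ℓ).ne_zero⟩
    obtain ⟨i, -, hi⟩ := ha'.eq_pow_of_pow_eq_one hb'
    have hi2 : b = a ^ i := Units.ext (by rw [Units.val_pow_eq_pow_val, hi])
    rw [hi2, smul_pow', hg]
  exact le_antisymm (key _ _ hp hu) (key _ _ hu hp)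

end BRP.H50
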