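import Pool.Agent.Lib.MP_defcf3_al.BRP.H50.CohC
import Pool.Agent.Lib.MP_defcf3_al.BR.H50.FinalT
import Pool.Agent.Lib.MP_defcf3_al.BR.H50.Seq
import Pool.Agent.Lib.MP_defcf3_al.BRP.H50.Index2

/-! Final assembly, Theorem T. -/

namespace BRP.H50

universe u

variable {ℓ : ℕ} [Fact ℓ.Prime] [Fact (Odd ℓ)]


open BR7 BR7.H50

/-- If all cyclic classes vanish then the subgroup generated by them is trivial. -/
theorem closure_cyc_trivial {F Ω : Type u} [Field F] [Field Ω] [Algebra F Ω]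
    (hZ : ∀ (a : Ωˣ) (χ : (Ω ≃ₐ[F] Ω) → ZMod ℓ), InF F a → (∀ g h, χ (g * h) = χ g + χ h) →
      IsLocallyConstant χ → cup ℓ a χ ∈ Z2 (Ω ≃ₐ[F] Ω) Ωˣ)
    (hB : ∀ (a : Ωˣ) (χ : (Ω ≃ₐ[F] Ω) → ZMod ℓ), InF F a → (∀ g h, χ (g * h) = χ g + χ h) →
      IsLocallyConstant χ → cup ℓ a χ ∈ B2 (Ω ≃ₐ[F] Ω) Ωˣ)
    (c : H2 (Ω ≃ₐ[F] Ω) Ωˣ)
    (hc : c ∈ Subgroup.closure {s | ∃ (a : Ωˣ) (χ : (Ω ≃ₐ[F] Ω) → ZMod ℓ), InF F a ∧
        (∀ g h, χ (g * h) = χ g + χ h) ∧ IsLocallyConstant χ ∧ s = cls (Ω ≃ₐ[F] Ω) Ωˣ (cup ℓ a χ)}) :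
    c = 1 := by
  have h1 : Subgroup.closure {s | ∃ (a : Ωˣ) (χ : (Ω ≃ₐ[F] Ω) → ZMod ℓ), InF F a ∧
        (∀ g h, χ (g * h) = χ g + χ h) ∧ IsLocallyConstant χ ∧ s = cls (Ω ≃ₐ[F] Ω) Ωˣ (cup ℓ a χ)} ≤ ⊥ := by
    rw [Subgroup.closure_le]
    rintro s ⟨a, χ, ha, hχ, hχc, rfl⟩
    rw [SetLike.mem_coe, Subgroup.mem_bot]
    exact (cls_one_iff (hZ a χ ha hχ hχc)).mpr (hB a χ ha hχ hχc)
  exact Subgroup.mem_bot.mp (h1 hc)

theorem not_division_matrix {F D : Type u} [Field F] [DivisionRing D] [Algebra F D] {n : ℕ} (hn : 2 ≤ n)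
    (e : D ≃ₐ[F] Matrix (Fin n) (Fin n) F) : False := by
  have h01 : (⟨0, by omega⟩ : Fin n) ≠ ⟨1, by omega⟩ := by
    intro h
    have := congrArg Fin.val h
    simp at this
  have h1 : e.symm (Matrix.single ⟨0, by omega⟩ ⟨1, by omega⟩ 1) *
      e.symm (Matrix.single ⟨0, by omega⟩ ⟨1, by omega⟩ 1) = 0 := by
    rw [← map_mul, Matrix.single_mul_single_of_ne (h := h01.symm), map_zero]
  have h2 : e.symm (Matrix.single ⟨0, by omega⟩ ⟨1, by omega⟩ 1) = 0 := by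
    rcases mul_eq_zero.mp h1 with h | h <;> exact h
  have h3 : (Matrix.single (⟨0, by omega⟩ : Fin n) ⟨1, by omega⟩ 1 : Matrix (Fin n) (Fin n) F) = 0 := by
    have := congrArg e h2
    rwa [AlgEquiv.apply_symm_apply, map_zero] at this
  have h4 := congrFun (congrFun h3 ⟨0, by omega⟩) ⟨1, by omega⟩
  rw [Matrix.single_apply_same] at h4
  exact one_ne_zero h4

theorem deg_eq {n m : ℕ} (h : n ^ 2 = m ^ 2) : n = m := Nat.pow_left_injective (by norm_num) h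

end BRP.H50
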