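import Pool.Agent.Lib.MP_defcf3_al.BRP.H50.Gen
import Pool.Agent.Lib.MP_defcf3_al.BRP.H22.Rel

/-! HONE, HTWO, HTHREE. -/

namespace BRP.H50

universe u

variable {ℓ : ℕ} [Fact ℓ.Prime] [Fact (Odd ℓ)]


open BR7 BR7.H50

theorem g_of_gamma {F Ω : Type u} [Field F] [Field Ω] [Algebra F Ω] {ζ : Ωˣ} {γ : Ω ≃ₐ[F] Ω} {k d : ℕ}
    {Q : Type u} [AddCommGroup Q] {sym : Ωˣ → Ωˣ → Q}
    {Γ : AddMonoid.End Q} (hS : SymAx ℓ F ζ γ k d sym Γ) {a : Ωˣ} (ha : InL F ζ a) (g : Ω ≃ₐ[F] Ω) :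
    ∃ i : ℕ, g • a = γ ^ i • a := by
  obtain ⟨i, hi⟩ := hS.gen g
  refine ⟨i, ?_⟩
  have h1 : ((γ ^ i)⁻¹ * g) • ζ = ζ := by
    rw [mul_smul, hi, inv_smul_smul]
  have h2 := ha _ h1
  rw [mul_smul, inv_smul_eq_iff] at h2
  exact h2

/-- An element of L fixed by γ lies in F. -/
theorem InF_of_gamma {F Ω : Type u} [Field F] [Field Ω] [Algebra F Ω] {ζ : Ωˣ} {γ : Ω ≃ₐ[F] Ω} {k d : ℕ}
    {Q : Type u} [AddCommGroup Q] {sym : Ωˣ → Ωˣ → Q}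
    {Γ : AddMonoid.End Q} (hS : SymAx ℓ F ζ γ k d sym Γ) {a : Ωˣ} (ha : InL F ζ a) (h1 : γ • a = a) :
    InF F a := by
  intro g
  obtain ⟨i, hi⟩ := g_of_gamma hS ha g
  rw [hi]
  clear hi
  induction i with
  | zero => simp
  | succ i ih => rw [pow_succ, mul_smul, h1, ih]

theorem hone : HeartStatement.{u} ℓ 1 := by
  intro F Ω _ _ _ _ _ ζ γ k Q _ sym Γ hS a b ha hb
  refine hS.triv a b (InF_of_gamma hS ha ?_) hb
  have := gamma_d_fix hS ha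
  rwa [pow_one] at this

/-- The fixed field of δ in L. -/
def fixE (F : Type u) {Ω : Type u} [Field F] [Field Ω] [Algebra F Ω] (ζ : Ωˣ) (δ : Ω ≃ₐ[F] Ω) :
    Subfield Ω where
  carrier := {x | (∀ g : Ω ≃ₐ[F] Ω, g • ζ = ζ → g x = x) ∧ δ x = x}
  mul_mem' := by
    rintro x y ⟨h1, h2⟩ ⟨h3, h4⟩
    exact ⟨fun g hg => by rw [map_mul, h1 g hg, h3 g hg], by rw [map_mul, h2, h4]⟩
  one_mem' := ⟨fun g _ => map_one g, map_one δ⟩
  add_mem' := by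
    rintro x y ⟨h1, h2⟩ ⟨h3, h4⟩
    exact ⟨fun g hg => by rw [map_add, h1 g hg, h3 g hg], by rw [map_add, h2, h4]⟩
  zero_mem' := ⟨fun g _ => map_zero g, map_zero δ⟩
  neg_mem' := by
    rintro x ⟨h1, h2⟩
    exact ⟨fun g hg => by rw [map_neg, h1 g hg], by rw [map_neg, h2]⟩
  inv_mem' := by
    rintro x ⟨h1, h2⟩
    exact ⟨fun g hg => by rw [map_inv₀, h1 g hg], by rw [map_inv₀, h2]⟩

theorem hsmall (hG : GenStatement.{u} ℓ) (hRel : H22.RelStatement.{u} ℓ) (d : ℕ)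
    (hd : d = 3 ∨ d = 2) : HeartStatement.{u} ℓ d := by
  intro F Ω _ _ _ _ _ ζ γ k Q _ sym Γ hS a b ha hb
  have h7 : ζ ^ ℓ = 1 := hS.prim.pow_eq_one
  have hrel := hRel F Ω ζ γ (fixE F ζ γ) h7 ⟨k, hS.act⟩ (by
    have h := gamma_d hS
    rcases hd with h' | h'
    · left; rwa [h'] at h
    · right; rwa [h'] at h) (fun e => Iff.rfl)
  have hmain := hG F Ω ζ γ k d Q sym Γ hS (fixE F ζ γ) (fun e he => he.1) hrel
    (∑ i ∈ Finset.range d, (Γ ^ i : AddMonoid.End Q)) (fun e l he hl => by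
      have heL : InL F ζ e := fun g hg => Units.ext (he.1 g hg)
      have heF : InF F e := InF_of_gamma hS heL (Units.ext he.2)
      have := hS.triv e l heF hl
      rw [← this]
      exact AddMonoidHom.finsetSum_apply _ _ _) a b ha hb
  rw [← hmain]
  exact (AddMonoidHom.finsetSum_apply _ _ _).symm

end BRP.H50
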