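import Pool.Agent.Lib.MP_defcf3_al.BR.H50.Full4
import Pool.Agent.Lib.MP_defcf3_al.BRP.H22.Kum
import Pool.Agent.Lib.MP_defcf3_al.BRP.H22.Rel
import Pool.Agent.Lib.MP_defcf3_al.BRP.H32.CycAlg
import Pool.Agent.Lib.MP_defcf3_al.BRP.H38.Index
import Pool.Agent.Lib.MP_defcf3_al.BRP.H38.Norm
import Pool.Agent.Lib.MP_defcf3_al.BRP.H38.Sadd
import Pool.Agent.Lib.MP_defcf3_al.BRP.H38.SymX
import Pool.Agent.Lib.MP_defcf3_al.BRP.H38.SymX2
import Pool.Agent.Lib.MP_defcf3_al.BRP.H38.KumSurj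
import Pool.Agent.Lib.MP_defcf3_al.BRP.H38.TrivC
import Pool.Agent.Lib.MP_defcf3_al.BRP.H38.CycFac
import Pool.Agent.Lib.MP_defcf3_al.BRP.H50.Small
import Pool.Agent.Lib.MP_defcf3_al.BRP.H50.CohC
import Pool.Agent.Lib.MP_defcf3_al.BRP.H50.FinalD
import Pool.Agent.Lib.MP_defcf3_al.BRP.H50.FinalE
import Pool.Agent.Lib.MP_defcf3_al.BRP.H50.Seq
import Pool.Agent.Lib.MP_defcf3_al.BRP.H50.Cycdiv
import Pool.Agent.Lib.MP_defcf3_al.BRP.H62.Tower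
import Pool.Agent.Lib.MP_defcf3_al.BRP.H62.Ltrans
import Pool.Agent.Lib.MP_defcf3_al.BRP.H65.RT
import Pool.Agent.Lib.MP_defcf3_al.BRP.H72.Eta
import Pool.Agent.Lib.MP_defcf3_al.BRP.H72.QuasiA
import Pool.Agent.Lib.MP_defcf3_al.BRP.H72.QuasiB
import Pool.Agent.Lib.MP_defcf3_al.BRP.H78.Lag
import Pool.Agent.Lib.MP_defcf3_al.BRP.H78.Syl
import Pool.Agent.Lib.MP_defcf3_al.BRP.H79.DegSeven
import Pool.Agent.Lib.MP_defcf3_al.BRP.H79.DivSeven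
import Pool.Agent.Lib.MP_defcf3_al.BRP.H92.Sevsym
import Pool.Agent.Lib.MP_defcf3_al.BRP.H88.Six
import Pool.Agent.Lib.MP_defcf3_al.BRP.H90.Five
import Pool.Agent.Lib.MP_defcf3_al.BRP.H99.Four

/-! All modules for a general prime put together. -/

open scoped TensorProduct

namespace BRP.H50.Full

universe u

variable {ℓ : ℕ} [Fact ℓ.Prime] [Fact (Odd ℓ)]

open BR7

theorem kum : KumStatement.{u} ℓ := BRP.H22.kum H4.dlog H4.disc

theorem sadd : SymAddStatement.{u} ℓ := BRP.H38.sadd BR7.H38.gz BR7.H38.gadd BR7.H38.gtors H4.disc kum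

theorem ndir : NormDirStatement.{u} := BR7.H38.ndir BR7.H38.push BR7.H38.gcob

theorem sstein : SymSteinStatement.{u} ℓ := BRP.H38.sstein ndir H4.disc kum BR7.H38.gz

theorem sgal : SymGalStatement.{u} ℓ := BRP.H38.sgal kum BR7.H38.gadd BR7.H38.gz BR7.H38.conjc H4.disc

theorem heart {d : ℕ} (hd1 : 1 ≤ d) (hd : d ≤ 6) : HeartStatement.{u} ℓ d := by
  obtain rfl | rfl | rfl | rfl | rfl | rfl : d = 1 ∨ d = 2 ∨ d = 3 ∨ d = 4 ∨ d = 5 ∨ d = 6 := by omega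
  · exact BRP.H50.hone
  · exact BRP.H50.hsmall BRP.H50.gen BRP.H22.rel 2 (Or.inr rfl)
  · exact BRP.H50.hsmall BRP.H50.gen BRP.H22.rel 3 (Or.inl rfl)
  · exact BRP.H99.four
  · exact BRP.H90.five
  · exact BRP.H88.six

theorem rt : RTStatement.{u} ℓ :=
  BRP.H65.rt BRP.H38.sxadd BRP.H38.sxpush BRP.H38.sxstein BRP.H38.sxident BRP.H38.sxmul BRP.H78.lag

theorem sevsym : SevenSymStatement.{u} ℓ :=
  BRP.H92.sevsym BRP.H78.syl BRP.H38.kumsurj BR7.H38.corcup rt BRP.H38.kumx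

theorem trivc : TrivCStatement.{u} ℓ := BRP.H38.trivc BR7.H38.gtrans kum H4.disc

theorem mainc {d : ℕ} (hd1 : 1 ≤ d) (hd : d ≤ 6) : MainCStatement.{u} ℓ d :=
  BRP.H50.mainc (by omega) sadd sstein sgal trivc H4.disc BR7.H38.conjc (BR7.H38.conjres BR7.H38.bz)
    (BRP.H50.cupResZ BR7.H38.gz H4.disc) (heart hd1 hd)

theorem cohs {d : ℕ} (hd1 : 1 ≤ d) (hd : d ≤ 6) : CohSStatement.{u} ℓ d :=
  BRP.H50.cohs (mainc hd1 hd) BR7.H38.corres BRP.H38.index H4.disc BR7.H38.gz BR7.H38.gtors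

theorem cohc {d : ℕ} (hd1 : 1 ≤ d) (hd : d ≤ 6) : CohCStatement.{u} ℓ d :=
  BRP.H50.cohc (cohs hd1 hd) sevsym BR7.H38.corres H4.disc

theorem cycalg : CycAlgStatement.{u} ℓ := BRP.H32.cycalg BR7.H50.Full.desc

theorem tower : TowerStatement.{u} ℓ := BRP.H62.tower BRP.H38.kumsurj BRP.H38.index H4.disc H4.dlog

theorem cycdiv : CycDivStatement.{u} ℓ :=
  BRP.H50.cycdiv BR7.H38.gadd BR7.H38.gcob BR7.H38.gtors H59.corn
    (H30.cornres BR7.H38.push BR7.H38.gchar BR7.H38.gadd BR7.H38.gcob)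
    (H10.cornmod BR7.H38.gmod) (BR7.H72.h90cyc BR7.H22.h90) BRP.H72.eta tower
    (BRP.H72.quasia BR7.H38.gmod BR7.H38.gz H4.disc)
    BRP.H72.quasib H84.nconv H4.disc BR7.H22.h90 BRP.H38.index

theorem seq : SeqStatement.{u} ℓ :=
  BRP.H50.seq BR7.H79.factor BR7.H50.Full.desc BR7.H50.repop BR7.H50.repone BR7.H50.Full.conv H19.pi
    BR7.H79.repcsa BR7.H50.Full.uniq

theorem finalC {d : ℕ} (hd1 : 1 ≤ d) (hd : d ≤ 6) :
    ∀ (F : Type u) [Field F], ((ℓ : ℕ) : F) ≠ 0 → ∀ (L : Type u) [Field L] [Algebra F L],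
      IsCyclotomicExtension {ℓ} F L → Module.finrank F L = d →
      ∀ (D : Type u) [DivisionRing D] [Algebra F D] [Algebra.IsCentral F D], Module.finrank F D = ℓ ^ 2 →
      ∃ (k : ℕ) (B : Fin k → Type u) (_ : ∀ i, Ring (B i)) (_ : ∀ i, Algebra F (B i)), k ≠ 0 ∧
        (∀ i, Algebra.IsCentral F (B i) ∧ Module.finrank F (B i) = ℓ ^ 2 ∧ (∀ b : B i, b ≠ 0 → IsUnit b) ∧
          ∃ (K : Type u) (_ : Field K) (_ : Algebra F K), IsGalois F K ∧ Module.finrank F K = ℓ ∧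
            Nonempty (K →ₐ[F] B i)) ∧
        ∃ p q : ℕ, p ≠ 0 ∧ q ≠ 0 ∧
          Nonempty (Matrix (Fin p) (Fin p) D ≃ₐ[F] Matrix (Fin q) (Fin q) (⨂[F] i, B i)) :=
  BRP.H50.finalC (cohc hd1 hd) BR7.H50.Full.repex BR7.H32.repz BR7.H50.repop BR7.H50.repone BR7.H50.Full.conv
    BRP.H79.divseven BR7.H38.gz H4.disc H19.pi cycalg BR7.H79.repcsa BRP.H79.degseven BR7.H50.Full.uniq

theorem finalD {d : ℕ} (hd1 : 1 ≤ d) (hd : d ≤ 6) :
    ∀ (F : Type u) [Field F], ((ℓ : ℕ) : F) ≠ 0 → ∀ (L : Type u) [Field L] [Algebra F L],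
      IsCyclotomicExtension {ℓ} F L → Module.finrank F L = d →
      ∀ (D : Type u) [DivisionRing D] [Algebra F D] [Algebra.IsCentral F D], Module.finrank F D = ℓ ^ 2 →
      HasQuasi ℓ F (SeparableClosure F) :=
  BRP.H50.finalD (cohc hd1 hd) cycdiv BR7.H50.Full.repex BR7.H32.repz BR7.H50.repop BR7.H50.repone
    BR7.H50.Full.conv BRP.H79.divseven BR7.H38.gz H4.disc

theorem finalE {d : ℕ} (hd1 : 1 ≤ d) (hd : d ≤ 6) :
    ∀ (F L : Type u) [Field F] [Field L] [Algebra F L], ((ℓ : ℕ) : F) ≠ 0 → IsCyclotomicExtension {ℓ} F L →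
      Module.finrank F L = d →
      ∀ (A : Type u) [Ring A] [Algebra F A] [Algebra.IsCentral F A] [IsSimpleRing A] (m : ℕ),
      Module.finrank F A = (ℓ ^ 2) ^ m →
      ∀ (k : ℕ) (B : Fin k → Type u) [∀ i, Ring (B i)] [∀ i, Algebra L (B i)],
      (∀ i, Algebra.IsCentral L (B i) ∧ IsSimpleRing (B i) ∧ Module.finrank L (B i) = ℓ ^ 2 ∧
        ∃ (K : Type u) (_ : Field K) (_ : Algebra L K), IsGalois L K ∧ Module.finrank L K = ℓ ∧
          Nonempty (K →ₐ[L] B i)) →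
      (∃ p q : ℕ, p ≠ 0 ∧ q ≠ 0 ∧
        Nonempty (Matrix (Fin p) (Fin p) (L ⊗[F] A) ≃ₐ[L] Matrix (Fin q) (Fin q) (⨂[L] i, B i))) →
      ∃ (l : ℕ) (C : Fin l → Type u) (_ : ∀ i, Ring (C i)) (_ : ∀ i, Algebra F (C i)),
        (∀ i, Algebra.IsCentral F (C i) ∧ Module.finrank F (C i) = ℓ ^ 2 ∧ (∀ b : C i, b ≠ 0 → IsUnit b) ∧
          ∃ (K : Type u) (_ : Field K) (_ : Algebra F K), IsGalois F K ∧ Module.finrank F K = ℓ ∧
            Nonempty (K →ₐ[F] C i)) ∧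
        ∃ p q : ℕ, p ≠ 0 ∧ q ≠ 0 ∧
          Nonempty (Matrix (Fin p) (Fin p) A ≃ₐ[F] Matrix (Fin q) (Fin q) (⨂[F] i, C i)) :=
  BRP.H50.finalE (cohs hd1 hd) BRP.H38.cycfac BR7.H38.det BR7.H38.basel
    (BRP.H62.ltrans BRP.H38.kumsurj kum BR7.H38.gz H4.disc H4.dlog) sadd
    BR7.H38.corres BRP.H38.index H46.basesimple BR7.H50.Full.repex BR7.H32.repz BR7.H50.repop BR7.H50.repone
    BR7.H50.Full.conv BR7.H38.gz H4.disc H19.pi
    cycalg BR7.H79.repcsa BRP.H79.degseven BR7.H50.Full.uniq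

end BRP.H50.Full
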