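import Pool.Agent.Lib.MP_defcf3_al.BRP.H50.Full
import Pool.Agent.Lib.MP_defcf3_al.BRP.H50.FinalG

/-! All modules for a general prime put together: the two final theorems. -/

open scoped TensorProduct

namespace BRP.H50.Full

universe u

open BR7

/-- The class over F of an algebra which becomes a product of algebras of degree ℓ over F(ζ). -/
theorem classG {ℓ : ℕ} [Fact ℓ.Prime] [Fact (Odd ℓ)] {d : ℕ} (hd1 : 1 ≤ d) (hd : d ≤ 6) :
    ∀ (F L : Type u) [Field F] [Field L] [Algebra F L], ((ℓ : ℕ) : F) ≠ 0 → IsCyclotomicExtension {ℓ} F L →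
      Module.finrank F L = d →
      ∀ (A : Type u) [Ring A] [Algebra F A] [Algebra.IsCentral F A] [IsSimpleRing A] (m : ℕ),
      Module.finrank F A = (ℓ ^ 2) ^ m →
      ∀ (k : ℕ) (B : Fin k → Type u) [∀ i, Ring (B i)] [∀ i, Algebra L (B i)],
      (∀ i, Algebra.IsCentral L (B i) ∧ IsSimpleRing (B i) ∧ Module.finrank L (B i) = ℓ ^ 2) →
      (∃ p q : ℕ, p ≠ 0 ∧ q ≠ 0 ∧
        Nonempty (Matrix (Fin p) (Fin p) (L ⊗[F] A) ≃ₐ[L] Matrix (Fin q) (Fin q) (⨂[L] i, B i))) →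
      ∃ (n : ℕ) (f : (SeparableClosure F ≃ₐ[F] SeparableClosure F) →
        (SeparableClosure F ≃ₐ[F] SeparableClosure F) → (SeparableClosure F)ˣ),
        n ≠ 0 ∧ Nonempty (RepData F (SeparableClosure F) A (Fin n) f) ∧
        cls (SeparableClosure F ≃ₐ[F] SeparableClosure F) (SeparableClosure F)ˣ f ∈
          BRP.H50.cycGrp ℓ F (SeparableClosure F) :=
  BRP.H50.classG (cohs hd1 hd) (cohc le_rfl (by norm_num)) BRP.H79.divseven BR7.H38.det BR7.H38.basel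
    (BRP.H62.ltrans BRP.H38.kumsurj kum BR7.H38.gz H4.disc H4.dlog) sadd
    BR7.H38.corres BRP.H38.index BR7.H50.Full.repex BR7.H32.repz BR7.H50.repop BR7.H50.repone
    BR7.H38.gz H4.disc H19.pi BRP.H79.degseven BR7.H50.Full.uniq

/-- Descent of products of algebras of degree p from F(ζ) to products of cyclic algebras over F. -/
theorem finalG (p : ℕ) (hp : p.Prime) (hodd : Odd p) (F L : Type u) [Field F] [Field L] [Algebra F L]
    (h7 : (p : F) ≠ 0) (hL : IsCyclotomicExtension {p} F L) (hd : Module.finrank F L ≤ 6)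
    (A : Type u) [Ring A] [Algebra F A] [Algebra.IsCentral F A] [IsSimpleRing A] (m : ℕ)
    (hA : Module.finrank F A = (p ^ 2) ^ m)
    (k : ℕ) (B : Fin k → Type u) [∀ i, Ring (B i)] [∀ i, Algebra L (B i)]
    (hB : ∀ i, Algebra.IsCentral L (B i) ∧ IsSimpleRing (B i) ∧ Module.finrank L (B i) = p ^ 2)
    (he : ∃ r s : ℕ, r ≠ 0 ∧ s ≠ 0 ∧
      Nonempty (Matrix (Fin r) (Fin r) (L ⊗[F] A) ≃ₐ[L] Matrix (Fin s) (Fin s) (⨂[L] i, B i))) :
    ∃ (l : ℕ) (C : Fin l → Type u) (_ : ∀ i, Ring (C i)) (_ : ∀ i, Algebra F (C i)),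
      (∀ i, Algebra.IsCentral F (C i) ∧ Module.finrank F (C i) = p ^ 2 ∧ (∀ b : C i, b ≠ 0 → IsUnit b) ∧
        ∃ (K : Type u) (_ : Field K) (_ : Algebra F K), IsGalois F K ∧ Module.finrank F K = p ∧
          Nonempty (K →ₐ[F] C i)) ∧
      ∃ r s : ℕ, r ≠ 0 ∧ s ≠ 0 ∧
        Nonempty (Matrix (Fin r) (Fin r) A ≃ₐ[F] Matrix (Fin s) (Fin s) (⨂[F] i, C i)) := by
  have : Fact p.Prime := ⟨hp⟩
  have : Fact (Odd p) := ⟨hodd⟩
  have : NeZero (p : F) := ⟨h7⟩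
  have : FiniteDimensional F L := IsCyclotomicExtension.finiteDimensional {p} F L
  obtain ⟨n, f, hn0, ⟨R⟩, hC⟩ := classG (ℓ := p) (Module.finrank_pos (R := F) (M := L)) hd F L h7 hL rfl A m hA
    k B hB he
  exact BRP.H50.cyc_to_alg BR7.H50.repop BR7.H32.repz BR7.H50.repone BR7.H50.Full.conv BR7.H38.gz H4.disc
    H19.pi cycalg BR7.H79.repcsa BRP.H79.degseven BR7.H50.Full.uniq R hC

/-- The Brumer-Rosen alternative. -/
theorem finalH (p : ℕ) (hp : p.Prime) (hodd : Odd p) (F L : Type u) [Field F] [Field L] [Algebra F L]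
    (h7 : (p : F) ≠ 0) (hL : IsCyclotomicExtension {p} F L) (hd : Module.finrank F L ≤ 6)
    (A : Type u) [Ring A] [Algebra F A] [Algebra.IsCentral F A] [IsSimpleRing A] (m : ℕ)
    (hA : Module.finrank F A = (p ^ 2) ^ m) (hns : ∀ n : ℕ, IsEmpty (A ≃ₐ[F] Matrix (Fin n) (Fin n) F))
    (k : ℕ) (B : Fin k → Type u) [∀ i, Ring (B i)] [∀ i, Algebra L (B i)]
    (hB : ∀ i, Algebra.IsCentral L (B i) ∧ IsSimpleRing (B i) ∧ Module.finrank L (B i) = p ^ 2)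
    (he : ∃ r s : ℕ, r ≠ 0 ∧ s ≠ 0 ∧
      Nonempty (Matrix (Fin r) (Fin r) (L ⊗[F] A) ≃ₐ[L] Matrix (Fin s) (Fin s) (⨂[L] i, B i))) :
    ∃ (A : ℕ → Type u) (_ : ∀ n, Ring (A n)) (_ : ∀ n, Algebra F (A n)),
      (∀ n, Algebra.IsCentral F (A n) ∧ IsSimpleRing (A n) ∧ FiniteDimensional F (A n)) ∧
      (∀ m : ℕ, IsEmpty (A 0 ≃ₐ[F] Matrix (Fin m) (Fin m) F)) ∧
      (∃ m : ℕ, Nonempty ((⨂[F] (_ : Fin p), A 0) ≃ₐ[F] Matrix (Fin m) (Fin m) F)) ∧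
      ∀ n, ∃ r s : ℕ, r ≠ 0 ∧ s ≠ 0 ∧
        Nonempty (Matrix (Fin r) (Fin r) (⨂[F] (_ : Fin p), A (n + 1)) ≃ₐ[F] Matrix (Fin s) (Fin s) (A n)) := by
  have : Fact p.Prime := ⟨hp⟩
  have : Fact (Odd p) := ⟨hodd⟩
  have : NeZero (p : F) := ⟨h7⟩
  have : FiniteDimensional F L := IsCyclotomicExtension.finiteDimensional {p} F L
  obtain ⟨n, f, hn0, ⟨R⟩, hC⟩ := classG (ℓ := p) (Module.finrank_pos (R := F) (M := L)) hd F L h7 hL rfl A m hA
    k B hB he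
  exact seq F (BRP.H50.split_or_quasi cycdiv BR7.H32.repz BR7.H50.repop BR7.H50.repone BR7.H50.Full.conv
    BR7.H38.gz H4.disc h7 hn0 R hC hns)

end BRP.H50.Full
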