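import Pool.Agent.Lib.MP_defcf3_al.BRP.H50.Sym

/-! The choice of γ for a general prime. -/

namespace BRP.H50

universe u

variable {ℓ : ℕ} [Fact ℓ.Prime] [Fact (Odd ℓ)]

open BR7 BR7.H50

/-- The choice of γ. -/
theorem exists_gamma {F Ω : Type u} [Field F] [Field Ω] [Algebra F Ω] {ζ : Ωˣ} (hp : IsPrimitiveRoot ζ ℓ) :
    ∃ (γ : Ω ≃ₐ[F] Ω) (k : ℕ), orderOf (k : ZMod ℓ) = (HZ F ζ).index ∧
      γ • ζ = ζ ^ k ∧ ∀ g : Ω ≃ₐ[F] Ω, ∃ i : ℕ, i < (HZ F ζ).index ∧ g • ζ = (γ ^ i) • ζ := by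
  classical
  have hp' : IsPrimitiveRoot (ζ : Ω) ℓ := IsPrimitiveRoot.coe_units_iff.2 hp
  have hspec : ∀ g : Ω ≃ₐ[F] Ω, g • ζ = ζ ^ ((hp'.autToPow F g : (ZMod ℓ)ˣ) : ZMod ℓ).val := by
    intro g
    refine Units.ext ?_
    rw [Units.val_pow_eq_pow_val, hp'.autToPow_spec F g]
    rfl
  have hker : (hp'.autToPow F).ker = HZ F ζ := by
    ext g
    rw [MonoidHom.mem_ker, MulAction.mem_stabilizer_iff, hspec g]
    constructor
    · intro h
      rw [h, Units.val_one, ZMod.val_one, pow_one]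
    · intro h
      apply Units.ext
      apply ZMod.val_injective ℓ
      rw [Units.val_one, ZMod.val_one]
      conv_rhs at h => rw [← pow_one ζ]
      rw [pow_eq_pow_iff_modEq, ← hp.eq_orderOf] at h
      have h1 := ZMod.val_lt ((hp'.autToPow F g : (ZMod ℓ)ˣ) : ZMod ℓ)
      have h2 := (Fact.out : Nat.Prime ℓ).one_lt
      unfold Nat.ModEq at h
      rwa [Nat.mod_eq_of_lt h1, Nat.mod_eq_of_lt h2] at h
  have hidx : (HZ F ζ).index = Nat.card (hp'.autToPow F).range := by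
    rw [← hker, Subgroup.index_ker]
  obtain ⟨⟨u, γ, hγ⟩, hu⟩ := IsCyclic.exists_generator (α := (hp'.autToPow F).range)
  have hcard : orderOf u = (HZ F ζ).index := by
    rw [hidx]
    have h1 := orderOf_eq_card_of_forall_mem_zpowers hu
    rw [← h1]
    exact (Subgroup.orderOf_mk u _).symm
  refine ⟨γ, (u : ZMod ℓ).val, ?_, ?_, ?_⟩
  · rw [ZMod.natCast_zmod_val, orderOf_units, hcard]
  · rw [hspec, hγ]
  · intro g
    have h1 := hu ⟨hp'.autToPow F g, g, rfl⟩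
    have hfin : IsOfFinOrder (⟨u, γ, hγ⟩ : (hp'.autToPow F).range) := isOfFinOrder_of_finite _
    rw [hfin.mem_zpowers_iff_mem_range_orderOf] at h1
    obtain ⟨i, hi, he⟩ := Finset.mem_image.1 h1
    have h5 : orderOf (⟨u, γ, hγ⟩ : (hp'.autToPow F).range) = orderOf u := Subgroup.orderOf_mk u _
    have hi : i < (HZ F ζ).index := by
      rw [← hcard, ← h5]
      exact Finset.mem_range.1 hi
    refine ⟨i, hi, ?_⟩
    have h2 : (u : (ZMod ℓ)ˣ) ^ i = hp'.autToPow F g := congrArg Subtype.val he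
    rw [hspec, hspec (γ ^ i), map_pow, hγ, h2]

/-- Injectivity. -/
theorem hinj_of {F Ω : Type u} [Field F] [Field Ω] [Algebra F Ω] {ζ : Ωˣ} {γ : Ω ≃ₐ[F] Ω} {k d : ℕ}
    (hp : IsPrimitiveRoot ζ ℓ) (hγ : γ • ζ = ζ ^ k) (hd : orderOf (k : ZMod ℓ) = d) :
    ∀ i j : ℕ, i < d → j < d → (γ ^ i) • ζ = (γ ^ j) • ζ → i = j := by
  have hpowk : ∀ i : ℕ, (γ ^ i) • ζ = ζ ^ (k ^ i) := by
    intro i
    induction i with
    | zero => simp
    | succ i ih => rw [pow_succ', mul_smul, ih, smul_pow', hγ, ← pow_mul, pow_succ']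
  intro i j hi hj h
  rw [hpowk, hpowk, pow_eq_pow_iff_modEq, ← hp.eq_orderOf] at h
  have h1 : ((k ^ i : ℕ) : ZMod ℓ) = ((k ^ j : ℕ) : ZMod ℓ) := (ZMod.natCast_eq_natCast_iff _ _ _).mpr h
  push_cast at h1
  rw [← hd] at hi hj
  exact pow_injOn_Iio_orderOf hi hj h1

/-- d divides ℓ - 1. -/
theorem coprime_of {k d : ℕ} (hd : orderOf (k : ZMod ℓ) = d) (hd0 : d ≠ 0) : Nat.Coprime d ℓ := by
  rw [Nat.coprime_comm, (Fact.out : Nat.Prime ℓ).coprime_iff_not_dvd]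
  intro hdvd
  have hk : (k : ZMod ℓ) ≠ 0 := by
    intro h
    rw [h] at hd
    have h1 : orderOf (0 : ZMod ℓ) = 0 := by
      rw [orderOf_eq_zero_iff']
      intro n hn h2
      rw [zero_pow (by omega)] at h2
      exact zero_ne_one h2
    exact hd0 (hd ▸ h1)
  have h2 : d ∣ ℓ - 1 := by
    rw [← hd, orderOf_dvd_iff_pow_eq_one]
    exact ZMod.pow_card_sub_one_eq_one hk
  have h3 := Nat.le_of_dvd (by have := (Fact.out : Nat.Prime ℓ).two_le; omega) (hdvd.trans h2)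
  have := (Fact.out : Nat.Prime ℓ).pos
  omega

end BRP.H50
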