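import Pool.Agent.Lib.MP_defcf3_al.BRP.Base
import Pool.Agent.Lib.MP_defcf3_al.BR.H50.KeyB

/-! Elementary consequences of the symbol axioms. -/

namespace BRP.H50

universe u

open BR7 BR7.H50

section Sym

variable {ℓ : ℕ} {F Ω : Type u} [Field F] [Field Ω] [Algebra F Ω]
variable {Q : Type u} [AddCommGroup Q] {sym : Ωˣ → Ωˣ → Q} {Γ : AddMonoid.End Q} {ζ : Ωˣ} {γ : Ω ≃ₐ[F] Ω}
  {k d : ℕ}

theorem sym_one_right (hS : SymAx ℓ F ζ γ k d sym Γ) {a : Ωˣ} (ha : InL F ζ a) : sym a 1 = 0 := by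
  have := hS.add_right a 1 1 ha InL_one InL_one
  rw [mul_one] at this
  simpa using this

theorem sym_one_left (hS : SymAx ℓ F ζ γ k d sym Γ) {b : Ωˣ} (hb : InL F ζ b) : sym 1 b = 0 := by
  have := hS.add_left 1 1 b InL_one InL_one hb
  rw [mul_one] at this
  simpa using this

theorem sym_pow_right (hS : SymAx ℓ F ζ γ k d sym Γ) {a b : Ωˣ} (ha : InL F ζ a) (hb : InL F ζ b) (n : ℕ) :
    sym a (b ^ n) = n • sym a b := by
  induction n with
  | zero => simp [sym_one_right hS ha]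
  | succ n ih => rw [pow_succ, hS.add_right _ _ _ ha (InL_pow hb n) hb, ih, succ_nsmul]

theorem sym_pow_left (hS : SymAx ℓ F ζ γ k d sym Γ) {a b : Ωˣ} (ha : InL F ζ a) (hb : InL F ζ b) (n : ℕ) :
    sym (a ^ n) b = n • sym a b := by
  induction n with
  | zero => simp [sym_one_left hS hb]
  | succ n ih => rw [pow_succ, hS.add_left _ _ _ (InL_pow ha n) ha hb, ih, succ_nsmul]

theorem sym_inv_right (hS : SymAx ℓ F ζ γ k d sym Γ) {a b : Ωˣ} (ha : InL F ζ a) (hb : InL F ζ b) :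
    sym a b⁻¹ = - sym a b := by
  have := hS.add_right a b b⁻¹ ha hb (InL_inv hb)
  rw [mul_inv_cancel, sym_one_right hS ha] at this
  exact (neg_eq_of_add_eq_zero_right this.symm).symm

theorem sym_inv_left (hS : SymAx ℓ F ζ γ k d sym Γ) {a b : Ωˣ} (ha : InL F ζ a) (hb : InL F ζ b) :
    sym a⁻¹ b = - sym a b := by
  have := hS.add_left a a⁻¹ b ha (InL_inv ha) hb
  rw [mul_inv_cancel, sym_one_left hS hb] at this
  exact (neg_eq_of_add_eq_zero_right this.symm).symm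

variable [Fact (Odd ℓ)]

theorem InL_neg_one : InL F ζ (-1) := fun g _ => Units.ext (by
  rw [smul_coe, Units.val_neg, Units.val_one, map_neg, map_one])

theorem sym_neg_one (hS : SymAx ℓ F ζ γ k d sym Γ) {b : Ωˣ} (hb : InL F ζ b) : sym (-1) b = 0 := by
  have h : (-1 : Ωˣ) = (-1) ^ ℓ := by
    rw [Odd.neg_one_pow (Fact.out : Odd ℓ)]
  rw [h, sym_pow_left hS InL_neg_one hb, hS.tors _ _ InL_neg_one hb]

theorem sym_anti (hS : SymAx ℓ F ζ γ k d sym Γ) {a b : Ωˣ} (ha : InL F ζ a) (hb : InL F ζ b) :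
    sym a b = - sym b a := by
  have h := hS.self (a * b) (InL_mul ha hb)
  rw [hS.add_left _ _ _ ha hb (InL_mul ha hb), hS.add_right _ _ _ ha ha hb, hS.add_right _ _ _ hb ha hb,
    hS.self a ha, hS.self b hb, zero_add, add_zero] at h
  exact eq_neg_of_add_eq_zero_left h

theorem sym_const_right (hS : SymAx ℓ F ζ γ k d sym Γ) {Q' : Type u} [AddCommGroup Q'] (Φ : Q →+ Q')
    {a b : Ωˣ} (ha : InL F ζ a) (hb : InL F ζ b) (h : Φ (sym a b) = 0) : Φ (sym b a) = 0 := by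
  rw [sym_anti hS hb ha, map_neg, h, neg_zero]

/-- Powers of γ act on ζ. -/
theorem gamma_pow' (hS : SymAx ℓ F ζ γ k d sym Γ) (i : ℕ) : γ ^ i • ζ = ζ ^ (k ^ i) := by
  induction i with
  | zero => simp
  | succ i ih => rw [pow_succ', mul_smul, ih, smul_pow', hS.act, ← pow_mul, pow_succ']

/-- γ maps L to L. -/
theorem InL_gamma (hS : SymAx ℓ F ζ γ k d sym Γ) {a : Ωˣ} (ha : InL F ζ a) : InL F ζ (γ • a) := by
  intro g hg
  have e : (γ⁻¹ * g * γ) • ζ = ζ := by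
    rw [mul_smul, mul_smul, hS.act, smul_pow', hg, ← hS.act, inv_smul_smul]
  have e2 := ha _ e
  rw [mul_smul, mul_smul, inv_smul_eq_iff] at e2
  exact e2

/-- k^d = 1 modulo ℓ, so γ^d fixes ζ. -/
theorem gamma_d (hS : SymAx ℓ F ζ γ k d sym Γ) : γ ^ d • ζ = ζ := by
  rw [gamma_pow' hS]
  have h1 : ((k : ZMod ℓ)) ^ d = 1 := by
    rw [← hS.ord]
    exact pow_orderOf_eq_one _
  have h2 : ((k ^ d : ℕ) : ZMod ℓ) = ((1 : ℕ) : ZMod ℓ) := by
    push_cast
    rw [h1]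
  have h3 : k ^ d ≡ 1 [MOD ℓ] := (ZMod.natCast_eq_natCast_iff _ _ _).mp h2
  conv_rhs => rw [← pow_one ζ]
  rw [pow_eq_pow_iff_modEq, ← hS.prim.eq_orderOf]
  exact h3

theorem gamma_d_fix (hS : SymAx ℓ F ζ γ k d sym Γ) {a : Ωˣ} (ha : InL F ζ a) : γ ^ d • a = a :=
  ha _ (gamma_d hS)

end Sym

end BRP.H50
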