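import Pool.Agent.Lib.MP_defcf3_al.BRP.Base
import Pool.Agent.Lib.MP_defcf3_al.BRP.H50.Sym

/-! GEN: generation of symbols. -/

namespace BRP.H50

universe u

variable {ℓ : ℕ} [Fact ℓ.Prime] [Fact (Odd ℓ)]


open BR7 BR7.H50

/-- H5. Lemma 5: symbols are generated by symbols with first entry in a subfield E with [L:E] at most 3. -/
def GenStatement (ℓ : ℕ) : Prop :=
  ∀ (F Ω : Type u) [Field F] [Field Ω] [Algebra F Ω] (ζ : Ωˣ) (γ : Ω ≃ₐ[F] Ω) (k d : ℕ)
    (Q : Type u) [AddCommGroup Q] (sym : Ωˣ → Ωˣ → Q) (Γ : AddMonoid.End Q),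
    SymAx ℓ F ζ γ k d sym Γ → ∀ (E : Subfield Ω),
    (∀ e ∈ E, ∀ g : Ω ≃ₐ[F] Ω, g • ζ = ζ → g e = e) →
    (∀ a b : Ωˣ, InL F ζ a → InL F ζ b → (a : Ω) ∈ E ∨
      ∃ e1 e2 e3 e4 : Ω, e1 ∈ E ∧ e2 ∈ E ∧ e3 ∈ E ∧ e4 ∈ E ∧ ¬ (e3 = 0 ∧ e4 = 0) ∧
        (e3 + e4 * a) * b = e1 + e2 * a) →
    ∀ (Φ : Q →+ Q), (∀ e l : Ωˣ, (e : Ω) ∈ E → InL F ζ l → Φ (sym e l) = 0) →
    ∀ a b : Ωˣ, InL F ζ a → InL F ζ b → Φ (sym a b) = 0

theorem gen : GenStatement.{u} ℓ := by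
  intro F Ω _ _ _ ζ γ k d Q _ sym Γ hS E hE hrel Φ hΦ a b ha hb
  have hEL : ∀ e : Ωˣ, (e : Ω) ∈ E → InL F ζ e := fun e he g hg => Units.ext (hE _ he g hg)
  have hae : ∀ a e : Ωˣ, InL F ζ a → (e : Ω) ∈ E → Φ (sym a e) = 0 := by
    intro a e ha he
    rw [sym_anti hS ha (hEL e he), map_neg, hΦ e a he ha, neg_zero]
  have haa : ∀ a : Ωˣ, InL F ζ a → ∀ (x : Ωˣ) (e1 e2 : Ω), InL F ζ x → e1 ∈ E → e2 ∈ E →
      (x : Ω) = e1 + e2 * a → Φ (sym a x) = 0 := by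
    intro a ha x e1 e2 hx he1 he2 h
    by_cases h2 : e2 = 0
    · apply hae a x ha
      rw [h, h2, zero_mul, add_zero]
      exact he1
    by_cases h1 : e1 = 0
    · have : x = Units.mk0 e2 h2 * a := Units.ext (by rw [h, h1, zero_add]; rfl)
      have hm : ((Units.mk0 e2 h2 : Ωˣ) : Ω) ∈ E := he2
      rw [this, hS.add_right _ _ _ ha (hEL _ hm) ha, hS.self a ha, add_zero, hae a _ ha hm]
    · set u1 := Units.mk0 e1 h1 with hu1
      set u2 := Units.mk0 e2 h2 with hu2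
      have hm1 : (u1 : Ω) ∈ E := he1
      have hm2 : (u2 : Ω) ∈ E := he2
      have hm3 : ((u2 * u1⁻¹ : Ωˣ) : Ω) ∈ E := by
        rw [Units.val_mul, Units.val_inv_eq_inv_val]
        exact E.mul_mem hm2 (E.inv_mem hm1)
      set y : Ωˣ := u1⁻¹ * x with hy
      have hyL : InL F ζ y := InL_mul (InL_inv (hEL _ hm1)) hx
      have hxy : x = u1 * y := by rw [hy, mul_inv_cancel_left]
      have hyv : (y : Ω) = 1 + (u2 * u1⁻¹ : Ωˣ) * a := by
        rw [hy, Units.val_mul, h, Units.val_mul, Units.val_inv_eq_inv_val]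
        have : (u1 : Ω) ≠ 0 := u1.ne_zero
        change (u1 : Ω)⁻¹ * ((u1 : Ω) + (u2 : Ω) * a) = _
        field_simp
      have hst := hS.stein ((-1) * (u2 * u1⁻¹) * a) y
        (InL_mul (InL_mul InL_neg_one (hEL _ hm3)) ha) hyL (by
          rw [hyv]
          push_cast
          ring)
      rw [hS.add_left _ _ _ (InL_mul InL_neg_one (hEL _ hm3)) ha hyL,
        hS.add_left _ _ _ InL_neg_one (hEL _ hm3) hyL, sym_neg_one hS hyL, zero_add] at hst
      have h3 : Φ (sym a y) = 0 := by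
        have := congrArg Φ hst
        rw [map_add, hΦ _ y hm3 hyL, zero_add, map_zero] at this
        exact this
      rw [hxy, hS.add_right _ _ _ ha (hEL _ hm1) hyL, map_add, hae a u1 ha hm1, h3, add_zero]
  by_cases haE : (a : Ω) ∈ E
  · exact hΦ a b haE hb
  rcases hrel a b ha hb with h | ⟨e1, e2, e3, e4, he1, he2, he3, he4, hne, heq⟩
  · exact absurd h haE
  have hy0 : e3 + e4 * a ≠ 0 := by
    intro h0
    by_cases h4 : e4 = 0
    · apply hne
      rw [h4, zero_mul, add_zero] at h0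
      exact ⟨h0, h4⟩
    · apply haE
      have : (a : Ω) = -e3 / e4 := by
        rw [eq_div_iff h4]
        linear_combination h0
      rw [this]
      exact E.div_mem (E.neg_mem he3) he4
  set y := Units.mk0 (e3 + e4 * a) hy0 with hy
  have hyL : InL F ζ y := by
    intro g hg
    refine Units.ext ?_
    rw [smul_coe, hy, Units.val_mk0, map_add, map_mul, hE _ he3 g hg, hE _ he4 g hg,
      show g (a : Ω) = a from congrArg Units.val (ha g hg)]
  have h1 := haa a ha y e3 e4 hyL he3 he4 rfl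
  have h2 := haa a ha (y * b) e1 e2 (InL_mul hyL hb) he1 he2 (by
    rw [Units.val_mul, ← heq]; rfl)
  rw [hS.add_right _ _ _ ha hyL hb, map_add, h1, zero_add] at h2
  exact h2

end BRP.H50
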